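import Pool.Agent.H37.OS.Few

/-!
# The number of components of a down-closed set, by linear algebra
-/

namespace H37.OS

variable {V E : Type*} [DecidableEq V] [Fintype V] [Fintype E]

/-- The difference vector of an edge. -/
def dv (p q : E → V) (e : E) : V → ℚ := Pi.single (p e) 1 - Pi.single (q e) 1

/-- The span of the difference vectors of the edges inside U. -/
def sp (p q : E → V) (U : Finset V) : Submodule ℚ (V → ℚ) :=
  Submodule.span ℚ {x | ∃ e, p e ∈ U ∧ q e ∈ U ∧ x = dv p q e}

/-- The number of components of U. -/
noncomputable def kap (p q : E → V) (U : Finset V) : ℤ :=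
  (U.card : ℤ) - Module.finrank ℚ (sp p q U)

omit [Fintype V] [Fintype E] in
theorem sp_zero (p q : E → V) (U : Finset V) (x : V → ℚ) (hx : x ∈ sp p q U) (v : V)
    (hv : v ∉ U) : x v = 0 := by
  unfold sp at hx
  induction hx using Submodule.span_induction with
  | mem x hx =>
    obtain ⟨e, h1, h2, rfl⟩ := hx
    have h3 : v ≠ p e := fun hh => hv (hh ▸ h1)
    have h4 : v ≠ q e := fun hh => hv (hh ▸ h2)
    simp [dv, h3, h4]
  | zero => rfl
  | add x y _ _ hx hy => simp [hx, hy]
  | smul c x _ hx => simp [hx]

omit [Fintype E] in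
theorem sp_sum (p q : E → V) (U : Finset V) (x : V → ℚ) (hx : x ∈ sp p q U) :
    ∑ v, x v = 0 := by
  unfold sp at hx
  induction hx using Submodule.span_induction with
  | mem x hx =>
    obtain ⟨e, h1, h2, rfl⟩ := hx
    simp [dv, Finset.sum_sub_distrib]
  | zero => simp
  | add x y _ _ hx hy => simp [Finset.sum_add_distrib, hx, hy]
  | smul c x _ hx => simp [← Finset.mul_sum, hx]

omit [Fintype V] [Fintype E] in
theorem sp_mono (p q : E → V) {U U' : Finset V} (h : U ⊆ U') : sp p q U ≤ sp p q U' := by
  unfold sp
  apply Submodule.span_mono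
  rintro x ⟨e, h1, h2, h3⟩
  exact ⟨e, h h1, h h2, h3⟩

omit [Fintype E] in
/-- Supermodularity on sets left by no edge. -/
theorem kap_super (p q : E → V) (U U' : Finset V) (hU : NoLeave p q U) (hU' : NoLeave p q U') :
    kap p q U + kap p q U' ≤ kap p q (U ∪ U') + kap p q (U ∩ U') := by
  have h1 : sp p q (U ∪ U') ≤ sp p q U ⊔ sp p q U' := by
    unfold sp
    rw [Submodule.span_le]
    rintro x ⟨e, h1, h2, rfl⟩
    rcases Finset.mem_union.1 h1 with h3 | h3
    · exact (le_sup_left : sp p q U ≤ sp p q U ⊔ sp p q U')
        (Submodule.subset_span ⟨e, h3, hU e h3, rfl⟩)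
    · exact (le_sup_right : sp p q U' ≤ sp p q U ⊔ sp p q U')
        (Submodule.subset_span ⟨e, h3, hU' e h3, rfl⟩)
  have h2 : sp p q (U ∩ U') ≤ sp p q U ⊓ sp p q U' :=
    le_inf (sp_mono p q Finset.inter_subset_left) (sp_mono p q Finset.inter_subset_right)
  have h3 := Submodule.finrank_mono h1
  have h4 := Submodule.finrank_mono h2
  have h5 := Submodule.finrank_sup_add_finrank_inf_eq (sp p q U) (sp p q U')
  have h6 := Finset.card_union_add_card_inter U U'
  unfold kap
  omega

/-- The span of the unit vectors of U. -/
private def un (U : Finset V) : Submodule ℚ (V → ℚ) :=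
  Submodule.span ℚ (Set.range (fun v : U => (Pi.single (v : V) (1 : ℚ) : V → ℚ)))

omit [Fintype E] in
private theorem finrank_un (U : Finset V) : Module.finrank ℚ (un U) = U.card := by
  unfold un
  have h1 : LinearIndependent ℚ (fun v : V => (Pi.single v (1 : ℚ) : V → ℚ)) := by
    have := (Pi.basisFun ℚ V).linearIndependent
    convert this using 1
    ext v
    simp
  have h2 := h1.comp (fun v : U => (v : V)) Subtype.val_injective
  have h3 := finrank_span_eq_card h2
  rw [Fintype.card_coe] at h3
  exact h3

omit [Fintype V] [Fintype E] in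
private theorem sp_le_un (p q : E → V) (U : Finset V) : sp p q U ≤ un U := by
  unfold sp un
  rw [Submodule.span_le]
  rintro x ⟨e, h1, h2, rfl⟩
  unfold dv
  exact Submodule.sub_mem _ (Submodule.subset_span ⟨⟨p e, h1⟩, rfl⟩)
    (Submodule.subset_span ⟨⟨q e, h2⟩, rfl⟩)

omit [Fintype E] in
theorem kap_pos (p q : E → V) (U : Finset V) (hU : U.Nonempty) : 1 ≤ kap p q U := by
  obtain ⟨u, hu⟩ := hU
  have h1 : sp p q U < un U := by
    refine lt_of_le_of_ne (sp_le_un p q U) ?_
    intro hh
    have h2 : (Pi.single u (1 : ℚ) : V → ℚ) ∈ un U :=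
      Submodule.subset_span ⟨⟨u, hu⟩, rfl⟩
    rw [← hh] at h2
    have h3 := sp_sum p q U _ h2
    simp at h3
  have h2 := Submodule.finrank_lt_finrank_of_lt h1
  rw [finrank_un] at h2
  unfold kap
  omega

omit [Fintype E] in
/-- A set with at least two components splits. -/
theorem kap_split (p q : E → V) (U : Finset V) (hU : 2 ≤ kap p q U) :
    ∃ C : Finset V, C ⊆ U ∧ C.Nonempty ∧ (U \ C).Nonempty ∧
      ∀ e, p e ∈ U → q e ∈ U → (p e ∈ C ↔ q e ∈ C) := by
  classical
  have hne : U.Nonempty := by
    by_contra hh
    rw [Finset.not_nonempty_iff_eq_empty] at hh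
    subst hh
    unfold kap at hU
    simp at hU
    omega
  obtain ⟨u, hu⟩ := hne
  let C := U.filter (fun v => (Pi.single v (1 : ℚ) - Pi.single u 1 : V → ℚ) ∈ sp p q U)
  refine ⟨C, Finset.filter_subset _ _, ⟨u, ?_⟩, ?_, ?_⟩
  · simp [C, hu]
  · by_contra hh
    rw [Finset.not_nonempty_iff_eq_empty, Finset.sdiff_eq_empty_iff_subset] at hh
    have h1 : un U ≤ sp p q U ⊔ Submodule.span ℚ {(Pi.single u (1 : ℚ) : V → ℚ)} := by
      unfold un
      rw [Submodule.span_le]
      rintro x ⟨v, rfl⟩
      have h2 := hh v.2
      simp only [C, Finset.mem_filter] at h2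
      have h3 : (Pi.single (v : V) (1 : ℚ) : V → ℚ) =
          (Pi.single (v : V) (1 : ℚ) - Pi.single u 1) + Pi.single u 1 := by simp
      show (Pi.single (v : V) (1 : ℚ) : V → ℚ) ∈ _
      rw [h3]
      exact Submodule.add_mem_sup h2.2 (Submodule.mem_span_singleton_self _)
    have h2 := Submodule.finrank_mono h1
    rw [finrank_un] at h2
    have h3 := Submodule.finrank_sup_add_finrank_inf_eq (sp p q U)
      (Submodule.span ℚ {(Pi.single u (1 : ℚ) : V → ℚ)})
    have h4 : Module.finrank ℚ (Submodule.span ℚ {(Pi.single u (1 : ℚ) : V → ℚ)}) ≤ 1 :=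
      (finrank_span_le_card _).trans (by simp)
    unfold kap at hU
    omega
  · intro e h1 h2
    simp only [C, Finset.mem_filter, h1, h2, true_and]
    have h3 : dv p q e ∈ sp p q U := Submodule.subset_span ⟨e, h1, h2, rfl⟩
    unfold dv at h3
    constructor
    · intro h4
      have h5 := Submodule.sub_mem _ h4 h3
      have h6 : (Pi.single (p e) (1 : ℚ) - Pi.single u 1 - (Pi.single (p e) 1 -
          Pi.single (q e) 1) : V → ℚ) = Pi.single (q e) 1 - Pi.single u 1 := by
        abel
      rwa [h6] at h5
    · intro h4
      have h5 := Submodule.add_mem _ h4 h3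
      have h6 : (Pi.single (q e) (1 : ℚ) - Pi.single u 1 + (Pi.single (p e) 1 -
          Pi.single (q e) 1) : V → ℚ) = Pi.single (p e) 1 - Pi.single u 1 := by
        abel
      rwa [h6] at h5

omit [Fintype E] in
/-- The components are additive at least in this direction. -/
theorem kap_add (p q : E → V) (U C : Finset V) (hC : C ⊆ U) :
    kap p q U ≤ kap p q C + kap p q (U \ C) := by
  have h1 : sp p q C ⊔ sp p q (U \ C) ≤ sp p q U :=
    sup_le (sp_mono p q hC) (sp_mono p q Finset.sdiff_subset)
  have h2 : sp p q C ⊓ sp p q (U \ C) = ⊥ := by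
    rw [eq_bot_iff]
    intro x hx
    rw [Submodule.mem_inf] at hx
    rw [Submodule.mem_bot]
    ext v
    by_cases hv : v ∈ C
    · exact sp_zero p q _ x hx.2 v (fun hh => (Finset.mem_sdiff.1 hh).2 hv)
    · exact sp_zero p q _ x hx.1 v hv
  have h3 := Submodule.finrank_mono h1
  have h4 := Submodule.finrank_sup_add_finrank_inf_eq (sp p q C) (sp p q (U \ C))
  rw [h2, finrank_bot] at h4
  have h5 := Finset.card_sdiff_add_card_eq_card hC
  unfold kap
  omega

/-- If every nonempty closed set without the root has at least s boundary edges, a closed set has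
at least s times its number of components. -/
theorem kap_cut (p q : E → V) (r : V) (s : ℕ)
    (h : ∀ Y : Finset V, Y.Nonempty → r ∉ Y → NoLeave p q Y → s ≤ (cut p q Y).card) :
    ∀ U : Finset V, r ∉ U → NoLeave p q U → (s : ℤ) * kap p q U ≤ (cut p q U).card := by
  classical
  have main : ∀ n : ℕ, ∀ U : Finset V, U.card = n → r ∉ U → NoLeave p q U →
      (s : ℤ) * kap p q U ≤ (cut p q U).card := by
    intro n
    induction n using Nat.strong_induction_on with
    | _ n ih =>
      intro U hUn hr hU
      by_cases hne : U.Nonempty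
      · by_cases hk : 2 ≤ kap p q U
        · obtain ⟨C, hCU, hCne, hCne', hC⟩ := kap_split p q U hk
          have h1 := kap_add p q U C hCU
          have hcard := Finset.card_sdiff_add_card_eq_card hCU
          have hp1 := Finset.card_pos.2 hCne
          have hp2 := Finset.card_pos.2 hCne'
          have hN1 : NoLeave p q C := fun e he => (hC e (hCU he) (hU e (hCU he))).1 he
          have hN2 : NoLeave p q (U \ C) := by
            intro e he
            rw [Finset.mem_sdiff] at he ⊢
            exact ⟨hU e he.1, fun hh => he.2 ((hC e he.1 (hU e he.1)).2 hh)⟩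
          have i1 := ih C.card (by omega) C rfl (fun hh => hr (hCU hh)) hN1
          have i2 := ih (U \ C).card (by omega) (U \ C) rfl
            (fun hh => hr (Finset.mem_sdiff.1 hh).1) hN2
          have h2 : (cut p q C).card + (cut p q (U \ C)).card ≤ (cut p q U).card := by
            rw [← Finset.card_union_of_disjoint]
            · apply Finset.card_le_card
              intro e he
              rw [Finset.mem_union] at he
              simp only [cut, Finset.mem_filter, Finset.mem_univ, true_and, Finset.mem_sdiff]
                at he ⊢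
              have h3 := hC e
              have h4 : p e ∈ C → p e ∈ U := fun hh => hCU hh
              have h5 : q e ∈ C → q e ∈ U := fun hh => hCU hh
              tauto
            · rw [Finset.disjoint_left]
              intro e he he'
              simp only [cut, Finset.mem_filter, Finset.mem_univ, true_and, Finset.mem_sdiff]
                at he he'
              have h3 := hC e
              have h4 : p e ∈ C → p e ∈ U := fun hh => hCU hh
              have h5 : q e ∈ C → q e ∈ U := fun hh => hCU hh
              tauto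
          have h3 : (s : ℤ) * kap p q U ≤ s * (kap p q C + kap p q (U \ C)) :=
            mul_le_mul_of_nonneg_left h1 (by positivity)
          rw [mul_add] at h3
          have h4 : ((cut p q C).card : ℤ) + (cut p q (U \ C)).card ≤ (cut p q U).card := by
            exact_mod_cast h2
          linarith
        · have h1 : kap p q U ≤ 1 := by omega
          have h2 : (s : ℤ) * kap p q U ≤ s * 1 := mul_le_mul_of_nonneg_left h1 (by positivity)
          have h3 : (s : ℤ) ≤ (cut p q U).card := by exact_mod_cast h U hne hr hU
          linarith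
      · rw [Finset.not_nonempty_iff_eq_empty] at hne
        subst hne
        have h1 : kap p q (∅ : Finset V) ≤ 0 := by
          unfold kap
          simp
        have h2 : (s : ℤ) * kap p q (∅ : Finset V) ≤ s * 0 :=
          mul_le_mul_of_nonneg_left h1 (by positivity)
        have h3 : (0 : ℤ) ≤ (cut p q (∅ : Finset V)).card := by positivity
        linarith
  intro U hr hU
  exact main _ U rfl hr hU

end H37.OS
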