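import Pool.Agent.H37.OS.Hak

/-!
# Dual pairs: directed cycles and directed cuts

D has vertices V and arcs A (tails tl, heads hd); the dual digraph has vertices F (the faces of D)
and the same arcs, from lf a to rt a. The pair is dual if the integer circulations of D are the
coboundaries of F and the dual is connected.
-/

namespace H37.OS

variable {V A F : Type*}

/-- (tl, hd) and (lf, rt) are dual: the integer circulations of the first are the integer
tensions (potential differences) of the second, and the second is connected. -/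
def DualPair [Fintype A] [DecidableEq V] (tl hd : A → V) (lf rt : A → F) : Prop :=
  (∀ x : A → ℤ, (∀ v, (∑ a ∈ Finset.univ.filter (fun a => tl a = v), x a) =
      ∑ a ∈ Finset.univ.filter (fun a => hd a = v), x a) ↔
    ∃ π : F → ℤ, ∀ a, x a = π (lf a) - π (rt a)) ∧
  ∀ π : F → ℤ, (∀ a, π (lf a) = π (rt a)) → ∀ f g, π f = π g

/-- A nonempty set of arcs in which every arc has a successor contains a directed cycle. -/
theorem exists_dicycle [Finite V] (tl hd : A → V) (S : Finset A) (hS : S.Nonempty)
    (h : ∀ a ∈ S, ∃ b ∈ S, tl b = hd a) :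
    ∃ (n : ℕ) (c : Fin (n + 1) → A), (∀ i, hd (c i) = tl (c (i + 1))) ∧
      Function.Injective (fun i => tl (c i)) ∧ ∀ i, c i ∈ S := by
  classical
  obtain ⟨a0, ha0⟩ := hS
  -- a choice of an arc at every vertex
  have hg : ∀ v : V, ∃ a ∈ S, (∃ b ∈ S, tl b = v) → tl a = v := by
    intro v
    by_cases hv : ∃ b ∈ S, tl b = v
    · obtain ⟨b, hb, hbv⟩ := hv
      exact ⟨b, hb, fun _ => hbv⟩
    · exact ⟨a0, ha0, fun hh => absurd hh hv⟩
  choose g hgS hgv using hg
  let φ : V → V := fun v => hd (g v)
  have hW : ∀ v, ∃ b ∈ S, tl b = φ v := fun v => h (g v) (hgS v)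
  have hWi : ∀ n : ℕ, ∃ b ∈ S, tl b = φ^[n] (tl a0) := by
    intro n
    cases n with
    | zero => exact ⟨a0, ha0, rfl⟩
    | succ n =>
      rw [Function.iterate_succ_apply']
      exact hW _
  obtain ⟨i, j, hij, he⟩ := Finite.exists_ne_map_eq_of_infinite (fun n : ℕ => φ^[n] (tl a0))
  -- a periodic point
  have hper : ∃ k : ℕ, φ^[k] (tl a0) ∈ Function.periodicPts φ := by
    have key : ∀ i j : ℕ, i < j → φ^[i] (tl a0) = φ^[j] (tl a0) →
        φ^[i] (tl a0) ∈ Function.periodicPts φ := by
      intro i j hlt he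
      refine ⟨j - i, by omega, ?_⟩
      show φ^[j - i] (φ^[i] (tl a0)) = φ^[i] (tl a0)
      rw [← Function.iterate_add_apply, Nat.sub_add_cancel hlt.le]
      exact he.symm
    rcases lt_or_gt_of_ne hij with hlt | hlt
    · exact ⟨i, key i j hlt he⟩
    · exact ⟨j, key j i hlt he.symm⟩
  obtain ⟨k, hk⟩ := hper
  set w := φ^[k] (tl a0) with hw
  have hpos : 0 < Function.minimalPeriod φ w := Function.minimalPeriod_pos_of_mem_periodicPts hk
  obtain ⟨n, hn⟩ : ∃ n, Function.minimalPeriod φ w = n + 1 :=
    ⟨Function.minimalPeriod φ w - 1, by omega⟩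
  have hwi : ∀ i : ℕ, ∃ b ∈ S, tl b = φ^[i] w := by
    intro i
    rw [hw, ← Function.iterate_add_apply]
    exact hWi _
  have htl : ∀ i : ℕ, tl (g (φ^[i] w)) = φ^[i] w := fun i => hgv _ (hwi i)
  refine ⟨n, fun i => g (φ^[i.val] w), ?_, ?_, fun i => hgS _⟩
  · intro i
    rw [htl]
    show φ (φ^[i.val] w) = _
    rw [← Function.iterate_succ_apply' φ]
    by_cases hi : i = Fin.last n
    · subst hi
      rw [Fin.last_add_one]
      have h1 : φ^[n + 1] w = w := by
        rw [← hn]
        exact Function.iterate_minimalPeriod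
      simpa using h1
    · rw [Fin.val_add_one, if_neg hi]
  · intro i j hij
    simp only at hij
    rw [htl, htl] at hij
    have h1 := Function.iterate_injOn_Iio_minimalPeriod (f := φ) (x := w)
    have h2 : i.val ∈ Set.Iio (Function.minimalPeriod φ w) := by
      rw [hn]
      exact i.2
    have h3 : j.val ∈ Set.Iio (Function.minimalPeriod φ w) := by
      rw [hn]
      exact j.2
    exact Fin.ext (h1 h2 h3 hij)

/-- If every directed cycle of D has at least g arcs, every directed cut of the dual has. -/
theorem dicut_card_ge [Finite V] [DecidableEq V] [Fintype A] [Fintype F] [DecidableEq F]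
    (tl hd : A → V) (lf rt : A → F)
    (hdual : DualPair tl hd lf rt) (g : ℕ)
    (hg : ∀ (n : ℕ) (c : Fin (n + 1) → A), (∀ i, hd (c i) = tl (c (i + 1))) →
      Function.Injective (fun i => tl (c i)) → g ≤ n + 1)
    (X : Finset F) (hX : X.Nonempty) (hXu : X ≠ Finset.univ) (hE : NoEnter lf rt X) :
    g ≤ (leave lf rt Finset.univ X).card := by
  classical
  set S := leave lf rt Finset.univ X with hSdef
  let x : A → ℤ := fun a => if a ∈ S then 1 else 0
  have hmem : ∀ a, a ∈ S ↔ lf a ∈ X ∧ rt a ∉ X := by
    intro a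
    rw [hSdef, mem_leave]
    simp
  have hx : ∃ π : F → ℤ, ∀ a, x a = π (lf a) - π (rt a) := by
    refine ⟨fun f => if f ∈ X then 1 else 0, ?_⟩
    intro a
    have h1 := hmem a
    have h2 := hE a
    simp only [x]
    by_cases h3 : lf a ∈ X <;> by_cases h4 : rt a ∈ X <;> simp_all
  have hcirc := (hdual.1 x).2 hx
  have hne : S.Nonempty := by
    by_contra hno
    rw [Finset.not_nonempty_iff_eq_empty] at hno
    obtain ⟨f, hf⟩ := hX
    have : ∃ f', f' ∉ X := by
      by_contra hcon
      push Not at hcon
      exact hXu (Finset.eq_univ_iff_forall.2 hcon)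
    obtain ⟨f', hf'⟩ := this
    have h1 := hdual.2 (fun f => if f ∈ X then 1 else 0) (by
      intro a
      have h1 : ¬ (lf a ∈ X ∧ rt a ∉ X) := by
        intro hh
        have h2 := (hmem a).2 hh
        rw [hno] at h2
        simp at h2
      have h2 := hE a
      by_cases h3 : lf a ∈ X
      · by_cases h4 : rt a ∈ X
        · simp [h3, h4]
        · exact absurd ⟨h3, h4⟩ h1
      · have h4 : rt a ∉ X := fun hh => h3 (h2 hh)
        simp [h3, h4]) f f'
    simp [hf, hf'] at h1
  obtain ⟨n, c, hc1, hc2, hc3⟩ := exists_dicycle tl hd S hne (by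
    intro a ha
    by_contra hcon
    push Not at hcon
    have h1 := hcirc (hd a)
    have h2 : (∑ b ∈ Finset.univ.filter (fun b => tl b = hd a), x b) = 0 := by
      apply Finset.sum_eq_zero
      intro b hb
      have hb' : tl b = hd a := by simpa using hb
      have : b ∉ S := fun hbS => hcon b hbS hb'
      simp [x, this]
    have h3 : 0 < ∑ b ∈ Finset.univ.filter (fun b => hd b = hd a), x b := by
      apply Finset.sum_pos'
      · intro b _
        simp only [x]
        split_ifs <;> norm_num
      · exact ⟨a, by simp, by simp [x, ha]⟩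
    omega)
  have h1 := hg n c hc1 hc2
  refine le_trans h1 ?_
  have hinj : Function.Injective c := fun i j hij => hc2 (by simp only [hij])
  have h2 : (Finset.univ : Finset (Fin (n + 1))).card ≤ S.card :=
    Finset.card_le_card_of_injOn c (fun i _ => hc3 i) (fun i _ j _ hij => hinj hij)
  simpa using h2

/-- A set of arcs meeting all directed cuts of the dual meets all directed cycles of D. -/
theorem fas_of_dijoin [Finite V] [DecidableEq V] [Fintype A] [Fintype F] [DecidableEq F]
    (tl hd : A → V) (lf rt : A → F)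
    (hdual : DualPair tl hd lf rt) (P : Finset A)
    (hP : ∀ X : Finset F, X.Nonempty → X ≠ Finset.univ → NoEnter lf rt X →
      ∃ a ∈ P, lf a ∈ X ∧ rt a ∉ X)
    (n : ℕ) (c : Fin (n + 1) → A) (hc : ∀ i, hd (c i) = tl (c (i + 1)))
    (hinj : Function.Injective (fun i => tl (c i))) : ∃ j, c j ∈ P := by
  classical
  have hcinj : Function.Injective c := fun i j hij => hinj (by simp only [hij])
  let x : A → ℤ := fun a => if a ∈ Finset.univ.image c then 1 else 0
  have hsum : ∀ (e : A → V) (v : V), (∑ a ∈ Finset.univ.filter (fun a => e a = v), x a) =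
      ∑ i : Fin (n + 1), if e (c i) = v then (1 : ℤ) else 0 := by
    intro e v
    rw [Finset.sum_filter]
    simp only [x]
    have h1 : (∑ a : A, if e a = v then (if a ∈ Finset.univ.image c then (1 : ℤ) else 0) else 0) =
        ∑ a ∈ Finset.univ.image c, if e a = v then (1 : ℤ) else 0 := by
      rw [← Finset.sum_filter_add_sum_filter_not Finset.univ (fun a => a ∈ Finset.univ.image c)]
      have h2 : (∑ a ∈ Finset.univ.filter (fun a => ¬ a ∈ Finset.univ.image c),
          if e a = v then (if a ∈ Finset.univ.image c then (1 : ℤ) else 0) else 0) = 0 := by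
        apply Finset.sum_eq_zero
        intro a ha
        rw [Finset.mem_filter] at ha
        rw [if_neg ha.2]
        simp
      rw [h2, add_zero]
      have h3 : Finset.univ.filter (fun a => a ∈ Finset.univ.image c) = Finset.univ.image c := by
        ext a
        simp
      rw [h3]
      apply Finset.sum_congr rfl
      intro a ha
      rw [if_pos ha]
    rw [h1, Finset.sum_image (fun i _ j _ hij => hcinj hij)]
  have hcirc : ∀ v, (∑ a ∈ Finset.univ.filter (fun a => tl a = v), x a) =
      ∑ a ∈ Finset.univ.filter (fun a => hd a = v), x a := by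
    intro v
    rw [hsum tl v, hsum hd v]
    rw [← Equiv.sum_comp (Equiv.addRight (1 : Fin (n + 1)))
      (fun i => if tl (c i) = v then (1 : ℤ) else 0)]
    apply Finset.sum_congr rfl
    intro i _
    rw [hc i]
    rfl
  obtain ⟨π, hπ⟩ := (hdual.1 x).1 hcirc
  have hx0 : ∀ a, 0 ≤ x a := by
    intro a
    simp only [x]
    split_ifs <;> norm_num
  have hmem0 : x (c 0) = 1 := by simp [x]
  let X : Finset F := Finset.univ.filter (fun f => π (lf (c 0)) ≤ π f)
  obtain ⟨a, haP, ha1, ha2⟩ := hP X ⟨lf (c 0), by simp [X]⟩ (by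
    intro hh
    have h1 : rt (c 0) ∈ X := hh ▸ Finset.mem_univ _
    simp only [X, Finset.mem_filter, Finset.mem_univ, true_and] at h1
    have h2 := hπ (c 0)
    omega) (by
    intro a ha
    simp only [X, Finset.mem_filter, Finset.mem_univ, true_and] at ha ⊢
    have h1 := hx0 a
    have h2 := hπ a
    omega)
  have ha3 : x a ≠ 0 := by
    simp only [X, Finset.mem_filter, Finset.mem_univ, true_and] at ha1 ha2
    have h2 := hπ a
    omega
  have ha4 : a ∈ Finset.univ.image c := by
    by_contra hh
    exact ha3 (by simp only [x]; rw [if_neg hh])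
  obtain ⟨j, _, hj⟩ := Finset.mem_image.1 ha4
  exact ⟨j, hj ▸ haP⟩

/-- The whole passage: a dual pair and an out-degree vector m on the faces which gives every
directed cycle of D, on the side without the face r, at least k oriented edges, give k disjoint
feedback arc sets of D. -/
theorem fas_of_vector [Finite V] [DecidableEq V] [Fintype A] [Fintype F] [DecidableEq F]
    (tl hd : A → V) (lf rt : A → F) (hdual : DualPair tl hd lf rt) (r : F) (k : ℕ) (m : F → ℕ)
    (hsum : ∑ f, m f = Fintype.card A)
    (h0 : ∀ X : Finset F, (inside lf rt X).card ≤ ∑ f ∈ X, m f)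
    (h1 : ∀ X : Finset F, X.Nonempty → r ∉ X → (NoEnter lf rt X ∨ NoLeave lf rt X) →
      (inside lf rt X).card + k ≤ ∑ f ∈ X, m f) :
    ∃ T : Fin k → Finset A, (∀ i j, i ≠ j → Disjoint (T i) (T j)) ∧
      ∀ i, ∀ (n : ℕ) (c : Fin (n + 1) → A), (∀ j, hd (c j) = tl (c (j + 1))) →
        Function.Injective (fun j => tl (c j)) → ∃ j, c j ∈ T i := by
  obtain ⟨T, hT1, hT2⟩ := dijoins_of_vector lf rt r k m hsum h0 h1
  exact ⟨T, hT1, fun i n c hc hi => fas_of_dijoin tl hd lf rt hdual (T i) (hT2 i) n c hc hi⟩

end H37.OS
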