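import Mathlib

/-!
# Edmonds' disjoint branchings in covering form, and the version for a ring family

V vertices, A arcs with tails tl and heads hd, r a root.
leave tl hd J X : the arcs of J which leave X.
-/

namespace H37.OS

variable {V A : Type*} [DecidableEq V] [DecidableEq A]

/-- The arcs of J leaving X. -/
def leave (tl hd : A → V) (J : Finset A) (X : Finset V) : Finset A :=
  J.filter (fun a => tl a ∈ X ∧ hd a ∉ X)

omit [DecidableEq A] in
theorem mem_leave {tl hd : A → V} {J : Finset A} {X : Finset V} {a : A} :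
    a ∈ leave tl hd J X ↔ a ∈ J ∧ tl a ∈ X ∧ hd a ∉ X := by
  simp [leave]

omit [DecidableEq A] in
theorem leave_mono {tl hd : A → V} {J J' : Finset A} (h : J ⊆ J') (X : Finset V) :
    leave tl hd J X ⊆ leave tl hd J' X := by
  intro a ha
  rw [mem_leave] at ha ⊢
  exact ⟨h ha.1, ha.2⟩

omit [DecidableEq A] in
private theorem leave_card_eq (tl hd : A → V) (J : Finset A) (X : Finset V) :
    (leave tl hd J X).card = ∑ a ∈ J, (if tl a ∈ X ∧ hd a ∉ X then 1 else 0) := by
  unfold leave
  rw [Finset.card_filter]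

omit [DecidableEq A] in
/-- Submodularity. -/
theorem leave_submod (tl hd : A → V) (J : Finset A) (X Y : Finset V) :
    (leave tl hd J (X ∩ Y)).card + (leave tl hd J (X ∪ Y)).card ≤
      (leave tl hd J X).card + (leave tl hd J Y).card := by
  rw [leave_card_eq, leave_card_eq, leave_card_eq, leave_card_eq, ← Finset.sum_add_distrib,
    ← Finset.sum_add_distrib]
  apply Finset.sum_le_sum
  intro a _
  by_cases h1 : tl a ∈ X <;> by_cases h2 : tl a ∈ Y <;> by_cases h3 : hd a ∈ X <;>
    by_cases h4 : hd a ∈ Y <;> simp [h1, h2, h3, h4]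

/-- One step of the construction of Lovasz. -/
private theorem step [Fintype V] (tl hd : A → V) (r : V) (J : Finset A) (k : ℕ)
    (h : ∀ X : Finset V, X.Nonempty → r ∉ X → k + 1 ≤ (leave tl hd J X).card)
    (U : Finset V) (T : Finset A) (hr : r ∈ U) (hTU : ∀ a ∈ T, tl a ∈ U)
    (hT : ∀ X : Finset V, X.Nonempty → r ∉ X → k ≤ (leave tl hd (J \ T) X).card)
    (hU : U ≠ Finset.univ) :
    ∃ a ∈ J \ T, tl a ∉ U ∧ hd a ∈ U ∧
      ∀ X : Finset V, X.Nonempty → r ∉ X → k ≤ (leave tl hd ((J \ T).erase a) X).card := by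
  classical
  -- it is enough that no tight set is left by a
  have key : ∀ a ∈ J \ T, (∀ Y : Finset V, r ∉ Y → (leave tl hd (J \ T) Y).card = k →
      tl a ∈ Y → hd a ∉ Y → False) →
      ∀ X : Finset V, X.Nonempty → r ∉ X → k ≤ (leave tl hd ((J \ T).erase a) X).card := by
    intro a _ hno X hX hrX
    have h1 := hT X hX hrX
    by_cases hl : a ∈ leave tl hd (J \ T) X
    · have hne : (leave tl hd (J \ T) X).card ≠ k := by
        intro he
        rw [mem_leave] at hl
        exact hno X hrX he hl.2.1 hl.2.2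
      have h2 : (leave tl hd (J \ T) X).erase a ⊆ leave tl hd ((J \ T).erase a) X := by
        intro b hb
        rw [Finset.mem_erase, mem_leave] at hb
        rw [mem_leave, Finset.mem_erase]
        exact ⟨⟨hb.1, hb.2.1⟩, hb.2.2⟩
      have h3 := Finset.card_le_card h2
      rw [Finset.card_erase_of_mem hl] at h3
      omega
    · have h2 : leave tl hd (J \ T) X ⊆ leave tl hd ((J \ T).erase a) X := by
        intro b hb
        have hba : b ≠ a := by
          rintro rfl
          exact hl hb
        rw [mem_leave] at hb ⊢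
        rw [Finset.mem_erase]
        exact ⟨⟨hba, hb.1⟩, hb.2⟩
      exact le_trans h1 (Finset.card_le_card h2)
  -- arcs of T do not leave a set outside U
  have hout : ∀ Z : Finset V, (∀ z ∈ Z, z ∉ U) → leave tl hd J Z = leave tl hd (J \ T) Z := by
    intro Z hZ
    ext b
    rw [mem_leave, mem_leave, Finset.mem_sdiff]
    constructor
    · rintro ⟨hb, h1, h2⟩
      refine ⟨⟨hb, ?_⟩, h1, h2⟩
      intro hbT
      exact hZ _ h1 (hTU b hbT)
    · rintro ⟨⟨hb, _⟩, h1, h2⟩
      exact ⟨hb, h1, h2⟩
  by_cases hex : ∃ X : Finset V, r ∉ X ∧ (leave tl hd (J \ T) X).card = k ∧ ¬ X ⊆ U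
  · -- a minimal one
    obtain ⟨X, hX, hmin⟩ : ∃ X : Finset V, (r ∉ X ∧ (leave tl hd (J \ T) X).card = k ∧ ¬ X ⊆ U) ∧
        ∀ Y : Finset V, (r ∉ Y ∧ (leave tl hd (J \ T) Y).card = k ∧ ¬ Y ⊆ U) →
          X.card ≤ Y.card := by
      have hne : (Finset.univ.filter (fun X : Finset V =>
          r ∉ X ∧ (leave tl hd (J \ T) X).card = k ∧ ¬ X ⊆ U)).Nonempty := by
        obtain ⟨X, hX⟩ := hex
        exact ⟨X, by simpa using hX⟩
      obtain ⟨X, hX, hm⟩ := Finset.exists_min_image _ (fun X : Finset V => X.card) hne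
      refine ⟨X, by simpa using hX, ?_⟩
      intro Y hY
      exact hm Y (by simpa using hY)
    obtain ⟨hrX, hXk, hXU⟩ := hX
    have hne : (X \ U).Nonempty := by
      rw [Finset.sdiff_nonempty]
      exact hXU
    have hrXU : r ∉ X \ U := fun hh => hrX (Finset.mem_sdiff.1 hh).1
    have h1 := h (X \ U) hne hrXU
    rw [hout (X \ U) (fun z hz => (Finset.mem_sdiff.1 hz).2)] at h1
    -- some arc leaves X \ U and not X
    obtain ⟨a, ha, hna⟩ : ∃ a ∈ leave tl hd (J \ T) (X \ U), a ∉ leave tl hd (J \ T) X := by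
      by_contra hcon
      push Not at hcon
      have := Finset.card_le_card (show leave tl hd (J \ T) (X \ U) ⊆ leave tl hd (J \ T) X from
        fun a ha => hcon a ha)
      omega
    rw [mem_leave] at ha hna
    obtain ⟨haJ, hat, hah⟩ := ha
    have hatX : tl a ∈ X := (Finset.mem_sdiff.1 hat).1
    have hatU : tl a ∉ U := (Finset.mem_sdiff.1 hat).2
    have hahX : hd a ∈ X := by
      by_contra hh
      exact hna ⟨haJ, hatX, hh⟩
    have hahU : hd a ∈ U := by
      by_contra hh
      exact hah (Finset.mem_sdiff.2 ⟨hahX, hh⟩)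
    refine ⟨a, haJ, hatU, hahU, key a haJ ?_⟩
    intro Y hrY hYk htY hhY
    have hs := leave_submod tl hd (J \ T) X Y
    have hi : (X ∩ Y).Nonempty := ⟨tl a, Finset.mem_inter.2 ⟨hatX, htY⟩⟩
    have hri : r ∉ X ∩ Y := fun hh => hrX (Finset.mem_inter.1 hh).1
    have hu : (X ∪ Y).Nonempty := ⟨tl a, Finset.mem_union.2 (Or.inl hatX)⟩
    have hru : r ∉ X ∪ Y := by
      intro hh
      rcases Finset.mem_union.1 hh with hh | hh
      · exact hrX hh
      · exact hrY hh
    have h2 := hT _ hi hri
    have h3 := hT _ hu hru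
    have h4 : (leave tl hd (J \ T) (X ∩ Y)).card = k := by omega
    have h5 : ¬ X ∩ Y ⊆ U := fun hh => hatU (hh (Finset.mem_inter.2 ⟨hatX, htY⟩))
    have h6 := hmin (X ∩ Y) ⟨hri, h4, h5⟩
    have h7 : X ∩ Y ⊂ X := by
      rw [Finset.ssubset_iff_of_subset Finset.inter_subset_left]
      exact ⟨hd a, hahX, fun hh => hhY (Finset.mem_inter.1 hh).2⟩
    have h8 := Finset.card_lt_card h7
    omega
  · push Not at hex
    have hne : (Finset.univ \ U).Nonempty := by
      rw [Finset.sdiff_nonempty]
      intro hh
      exact hU (Finset.univ_subset_iff.1 hh)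
    have hrU : r ∉ Finset.univ \ U := fun hh => (Finset.mem_sdiff.1 hh).2 hr
    have h1 := h _ hne hrU
    rw [hout _ (fun z hz => (Finset.mem_sdiff.1 hz).2)] at h1
    have hpos : 0 < (leave tl hd (J \ T) (Finset.univ \ U)).card := by omega
    obtain ⟨a, ha⟩ := Finset.card_pos.1 hpos
    rw [mem_leave] at ha
    obtain ⟨haJ, hat, hah⟩ := ha
    have hatU : tl a ∉ U := (Finset.mem_sdiff.1 hat).2
    have hahU : hd a ∈ U := by
      by_contra hh
      exact hah (Finset.mem_sdiff.2 ⟨Finset.mem_univ _, hh⟩)
    refine ⟨a, haJ, hatU, hahU, key a haJ ?_⟩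
    intro Y hrY hYk htY _
    exact hatU (hex Y hrY hYk htY)

/-- One covering can be split off. -/
private theorem splitOff [Fintype V] (tl hd : A → V) (r : V) (J : Finset A) (k : ℕ)
    (h : ∀ X : Finset V, X.Nonempty → r ∉ X → k + 1 ≤ (leave tl hd J X).card) :
    ∃ T : Finset A, T ⊆ J ∧
      (∀ X : Finset V, X.Nonempty → r ∉ X → (leave tl hd T X).Nonempty) ∧
      ∀ X : Finset V, X.Nonempty → r ∉ X → k ≤ (leave tl hd (J \ T) X).card := by
  classical
  -- induction on the number of vertices outside U
  have main : ∀ n : ℕ, ∀ (U : Finset V) (T : Finset A), (Finset.univ \ U).card = n → r ∈ U →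
      T ⊆ J → (∀ a ∈ T, tl a ∈ U) →
      (∀ X : Finset V, (X ∩ U).Nonempty → r ∉ X → (leave tl hd T X).Nonempty) →
      (∀ X : Finset V, X.Nonempty → r ∉ X → k ≤ (leave tl hd (J \ T) X).card) →
      ∃ T : Finset A, T ⊆ J ∧
      (∀ X : Finset V, X.Nonempty → r ∉ X → (leave tl hd T X).Nonempty) ∧
      ∀ X : Finset V, X.Nonempty → r ∉ X → k ≤ (leave tl hd (J \ T) X).card := by
    intro n
    induction n with
    | zero =>
      intro U T hc _ hTJ _ hcov hres
      have hU : U = Finset.univ := by
        rw [Finset.card_eq_zero, Finset.sdiff_eq_empty_iff_subset] at hc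
        exact Finset.univ_subset_iff.1 hc
      subst hU
      exact ⟨T, hTJ, fun X hX hr => hcov X (by simpa using hX) hr, hres⟩
    | succ n ih =>
      intro U T hc hr hTJ hTU hcov hres
      have hU : U ≠ Finset.univ := by
        rintro rfl
        simp at hc
      obtain ⟨a, haJ, hatU, hahU, hnew⟩ := step tl hd r J k h U T hr hTU hres hU
      have haJ1 : a ∈ J := (Finset.mem_sdiff.1 haJ).1
      apply ih (insert (tl a) U) (insert a T)
      · have h1 : Finset.univ \ insert (tl a) U = (Finset.univ \ U).erase (tl a) := by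
          ext x
          simp only [Finset.mem_sdiff, Finset.mem_univ, true_and, Finset.mem_insert, not_or,
            Finset.mem_erase]
        rw [h1, Finset.card_erase_of_mem (Finset.mem_sdiff.2 ⟨Finset.mem_univ _, hatU⟩), hc]
        rfl
      · exact Finset.mem_insert_of_mem hr
      · intro b hb
        rcases Finset.mem_insert.1 hb with rfl | hb
        · exact haJ1
        · exact hTJ hb
      · intro b hb
        rcases Finset.mem_insert.1 hb with rfl | hb
        · exact Finset.mem_insert_self _ _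
        · exact Finset.mem_insert_of_mem (hTU b hb)
      · intro X hX hrX
        by_cases hXU : (X ∩ U).Nonempty
        · obtain ⟨b, hb⟩ := hcov X hXU hrX
          exact ⟨b, leave_mono (Finset.subset_insert a T) X hb⟩
        · refine ⟨a, ?_⟩
          rw [mem_leave]
          obtain ⟨x, hx⟩ := hX
          rw [Finset.mem_inter, Finset.mem_insert] at hx
          have hxt : x = tl a := by
            rcases hx.2 with hh | hh
            · exact hh
            · exact absurd ⟨x, Finset.mem_inter.2 ⟨hx.1, hh⟩⟩ hXU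
          refine ⟨Finset.mem_insert_self _ _, hxt ▸ hx.1, ?_⟩
          intro hh
          exact hXU ⟨hd a, Finset.mem_inter.2 ⟨hh, hahU⟩⟩
      · intro X hX hrX
        have h1 : J \ insert a T = (J \ T).erase a := by
          ext b
          simp only [Finset.mem_sdiff, Finset.mem_insert, not_or, Finset.mem_erase]
          tauto
        rw [h1]
        exact hnew X hX hrX
  apply main _ {r} ∅ rfl (Finset.mem_singleton_self r) (Finset.empty_subset J)
  · intro a ha
    simp at ha
  · intro X hX hrX
    exfalso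
    obtain ⟨x, hx⟩ := hX
    rw [Finset.mem_inter, Finset.mem_singleton] at hx
    exact hrX (hx.2 ▸ hx.1)
  · intro X hX hrX
    have := h X hX hrX
    rw [Finset.sdiff_empty]
    omega

/-- Edmonds' theorem in covering form: if every nonempty set without the root is left by at least
k arcs of J, then J contains k disjoint sets each of which leaves every such set. -/
theorem edmonds [Fintype V] (tl hd : A → V) (r : V) (k : ℕ) : ∀ (J : Finset A),
    (∀ X : Finset V, X.Nonempty → r ∉ X → k ≤ (leave tl hd J X).card) →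
    ∃ P : Fin k → Finset A, (∀ i, P i ⊆ J) ∧ (∀ i j, i ≠ j → Disjoint (P i) (P j)) ∧
      ∀ i, ∀ X : Finset V, X.Nonempty → r ∉ X → (leave tl hd (P i) X).Nonempty := by
  classical
  induction k with
  | zero =>
    intro J _
    exact ⟨fun i => i.elim0, fun i => i.elim0, fun i => i.elim0, fun i => i.elim0⟩
  | succ k ih =>
    intro J h
    obtain ⟨T, hTJ, hcov, hres⟩ := splitOff tl hd r J k h
    obtain ⟨P, hP1, hP2, hP3⟩ := ih (J \ T) hres
    refine ⟨Fin.cons T P, ?_, ?_, ?_⟩
    · intro i
      refine Fin.cases ?_ (fun j => ?_) i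
      · simpa using hTJ
      · simpa using (hP1 j).trans Finset.sdiff_subset
    · intro i j
      have hd : ∀ j, Disjoint T (P j) := fun j =>
        Finset.disjoint_of_subset_right (hP1 j) Finset.disjoint_sdiff
      refine Fin.cases (fun hij => ?_) (fun i' => ?_) i
      · revert hij
        refine Fin.cases (fun hij => absurd rfl hij) (fun j' _ => ?_) j
        simpa using hd j'
      · refine Fin.cases (fun _ => ?_) (fun j' hij => ?_) j
        · simpa using (hd i').symm
        · have : i' ≠ j' := fun hh => hij (by rw [hh])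
          simpa using hP2 i' j' this
    · intro i X hX hr
      refine Fin.cases ?_ (fun j => ?_) i
      · simpa using hcov X hX hr
      · simpa using hP3 j X hX hr

/-- A set entered by no arc. -/
def NoEnter (tl hd : A → V) (X : Finset V) : Prop := ∀ a, hd a ∈ X → tl a ∈ X

/-- Edmonds for the ring family of the nonempty sets without the root which no arc enters. -/
theorem ringSplit [Fintype V] [Fintype A] (tl hd : A → V) (r : V) (k : ℕ) (J : Finset A)
    (h : ∀ X : Finset V, X.Nonempty → r ∉ X → NoEnter tl hd X →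
      k ≤ (leave tl hd J X).card) :
    ∃ P : Fin k → Finset A, (∀ i, P i ⊆ J) ∧ (∀ i j, i ≠ j → Disjoint (P i) (P j)) ∧
      ∀ i, ∀ X : Finset V, X.Nonempty → r ∉ X → NoEnter tl hd X →
        (leave tl hd (P i) X).Nonempty := by
  classical
  let tl' : A ⊕ (A × Fin k) → V := Sum.elim tl (fun p => hd p.1)
  let hd' : A ⊕ (A × Fin k) → V := Sum.elim hd (fun p => tl p.1)
  let J' : Finset (A ⊕ (A × Fin k)) := Finset.univ.filter (fun x => ∀ a, x = Sum.inl a → a ∈ J)
  have hJ' : ∀ X : Finset V, X.Nonempty → r ∉ X → k ≤ (leave tl' hd' J' X).card := by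
    intro X hX hrX
    by_cases hE : NoEnter tl hd X
    · refine le_trans (h X hX hrX hE) ?_
      refine Finset.card_le_card_of_injOn (fun a => Sum.inl a) ?_ ?_
      · intro a ha
        simp only [Finset.mem_coe] at ha ⊢
        rw [mem_leave] at ha ⊢
        refine ⟨?_, ha.2.1, ha.2.2⟩
        simp only [J', Finset.mem_filter, Finset.mem_univ, true_and, Sum.inl.injEq]
        rintro b rfl
        exact ha.1
      · intro a _ b _ hab
        simpa using hab
    · unfold NoEnter at hE
      push Not at hE
      obtain ⟨a, h1, h2⟩ := hE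
      have hc : (Finset.univ : Finset (Fin k)).card ≤ (leave tl' hd' J' X).card := by
        refine Finset.card_le_card_of_injOn (fun i => Sum.inr (a, i)) ?_ ?_
        · intro i _
          simp only [Finset.mem_coe]
          rw [mem_leave]
          refine ⟨?_, h1, h2⟩
          simp [J']
        · intro i _ j _ hij
          simpa using hij
      simpa using hc
  obtain ⟨P, hP1, hP2, hP3⟩ := edmonds tl' hd' r k J' hJ'
  refine ⟨fun i => Finset.univ.filter (fun a => Sum.inl a ∈ P i), ?_, ?_, ?_⟩
  · intro i a ha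
    simp only [Finset.mem_filter, Finset.mem_univ, true_and] at ha
    have := hP1 i ha
    simp only [J', Finset.mem_filter, Finset.mem_univ, true_and, Sum.inl.injEq] at this
    exact this a rfl
  · intro i j hij
    rw [Finset.disjoint_left]
    intro a ha hb
    simp only [Finset.mem_filter, Finset.mem_univ, true_and] at ha hb
    exact Finset.disjoint_left.1 (hP2 i j hij) ha hb
  · intro i X hX hrX hE
    obtain ⟨x, hx⟩ := hP3 i X hX hrX
    rw [mem_leave] at hx
    rcases x with a | ⟨a, j⟩
    · refine ⟨a, ?_⟩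
      rw [mem_leave]
      exact ⟨by simpa using hx.1, hx.2.1, hx.2.2⟩
    · exact absurd (hE a hx.2.1) hx.2.2

/-- A set left by no arc. -/
def NoLeave (tl hd : A → V) (X : Finset V) : Prop := ∀ a, tl a ∈ X → hd a ∈ X

/-- From one set J to k disjoint sets meeting all directed cuts: J has at least k arcs in every
directed cut with the root on the head side, its complement at least k arcs in every directed cut
with the root on the tail side. -/
theorem dijoins_of_half [Fintype V] [Fintype A] (tl hd : A → V) (r : V) (k : ℕ) (J : Finset A)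
    (h1 : ∀ X : Finset V, X.Nonempty → r ∉ X → NoEnter tl hd X →
      k ≤ (leave tl hd J X).card)
    (h2 : ∀ X : Finset V, X.Nonempty → r ∉ X → NoLeave tl hd X →
      k ≤ (leave hd tl (Finset.univ \ J) X).card) :
    ∃ P : Fin k → Finset A, (∀ i j, i ≠ j → Disjoint (P i) (P j)) ∧
      ∀ i, ∀ X : Finset V, X.Nonempty → X ≠ Finset.univ → NoEnter tl hd X →
        ∃ a ∈ P i, tl a ∈ X ∧ hd a ∉ X := by
  classical
  obtain ⟨P, hP1, hP2, hP3⟩ := ringSplit tl hd r k J h1
  obtain ⟨Q, hQ1, hQ2, hQ3⟩ := ringSplit hd tl r k (Finset.univ \ J) (by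
    intro X hX hr hE
    exact h2 X hX hr (fun a ha => hE a ha))
  refine ⟨fun i => P i ∪ Q i, ?_, ?_⟩
  · intro i j hij
    rw [Finset.disjoint_union_left, Finset.disjoint_union_right, Finset.disjoint_union_right]
    have hPQ : ∀ i j, Disjoint (P i) (Q j) := fun i j =>
      Finset.disjoint_of_subset_left (hP1 i)
        (Finset.disjoint_of_subset_right (hQ1 j) Finset.disjoint_sdiff)
    exact ⟨⟨hP2 i j hij, hPQ i j⟩, (hPQ j i).symm, hQ2 i j hij⟩
  · intro i X hX hXu hE
    by_cases hr : r ∈ X
    · have hne : (Finset.univ \ X).Nonempty := by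
        rw [Finset.sdiff_nonempty]
        intro hh
        exact hXu (Finset.univ_subset_iff.1 hh)
      have hr' : r ∉ Finset.univ \ X := fun hh => (Finset.mem_sdiff.1 hh).2 hr
      obtain ⟨a, ha⟩ := hQ3 i _ hne hr' (by
        intro a ha
        rw [Finset.mem_sdiff] at ha ⊢
        exact ⟨Finset.mem_univ _, fun hh => ha.2 (hE a hh)⟩)
      rw [mem_leave] at ha
      refine ⟨a, Finset.mem_union.2 (Or.inr ha.1), ?_, (Finset.mem_sdiff.1 ha.2.1).2⟩
      by_contra hh
      exact ha.2.2 (Finset.mem_sdiff.2 ⟨Finset.mem_univ _, hh⟩)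
    · obtain ⟨a, ha⟩ := hP3 i X hX hr hE
      rw [mem_leave] at ha
      exact ⟨a, Finset.mem_union.2 (Or.inl ha.1), ha.2.1, ha.2.2⟩

end H37.OS
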