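import Pool.Agent.H37.OS.Dual

/-!
# Few odd vertices

If for a root r every set Z of other vertices has at most as many odd vertices as boundary edges,
the vector m v = ceil (deg v / 2) for v other than r is feasible.
-/

namespace H37.OS

variable {V E : Type*} [DecidableEq V]

/-- The edges with exactly one end in X. -/
def cut (p q : E → V) [Fintype E] (X : Finset V) : Finset E :=
  Finset.univ.filter (fun e => ¬ (p e ∈ X ↔ q e ∈ X))

/-- The degree of a vertex (loops counted twice). -/
def deg (p q : E → V) [Fintype E] (v : V) : ℕ :=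
  (Finset.univ.filter (fun e => p e = v)).card + (Finset.univ.filter (fun e => q e = v)).card

private theorem sum_fiber [Fintype E] (p : E → V) (X : Finset V) :
    ∑ v ∈ X, (Finset.univ.filter (fun e => p e = v)).card =
      (Finset.univ.filter (fun e => p e ∈ X)).card := by
  classical
  rw [Finset.card_eq_sum_card_fiberwise (f := p) (t := X)]
  · apply Finset.sum_congr rfl
    intro v hv
    congr 1
    ext e
    simp only [Finset.mem_filter, Finset.mem_univ, true_and]
    constructor
    · rintro rfl
      exact ⟨hv, rfl⟩
    · exact fun hh => hh.2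
  · intro e he
    simpa using he

/-- The degree sum. -/
theorem sum_deg [Fintype E] (p q : E → V) (X : Finset V) :
    ∑ v ∈ X, deg p q v = 2 * (inside p q X).card + (cut p q X).card := by
  classical
  unfold deg
  rw [Finset.sum_add_distrib, sum_fiber, sum_fiber]
  unfold inside cut
  simp only [Finset.card_filter]
  rw [Finset.mul_sum, ← Finset.sum_add_distrib, ← Finset.sum_add_distrib]
  apply Finset.sum_congr rfl
  intro e _
  by_cases h1 : p e ∈ X <;> by_cases h2 : q e ∈ X <;> simp [h1, h2]

/-- All edges are inside X, inside the complement, or in the cut. -/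
theorem card_split [Fintype V] [Fintype E] (p q : E → V) (X : Finset V) :
    (inside p q X).card + (inside p q Xᶜ).card + (cut p q X).card = Fintype.card E := by
  classical
  unfold inside cut
  simp only [Finset.card_filter]
  rw [← Finset.sum_add_distrib, ← Finset.sum_add_distrib, ← Finset.card_univ,
    Finset.card_eq_sum_ones]
  apply Finset.sum_congr rfl
  intro e _
  by_cases h1 : p e ∈ X <;> by_cases h2 : q e ∈ X <;> simp [h1, h2]

theorem cut_compl [Fintype V] [Fintype E] (p q : E → V) (X : Finset V) :
    cut p q Xᶜ = cut p q X := by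
  ext e
  simp only [cut, Finset.mem_filter, Finset.mem_univ, true_and, Finset.mem_compl]
  tauto

/-- The vector. -/
theorem vector_of_few [Fintype V] [Fintype E] (p q : E → V) (r : V)
    (h : ∀ Z : Finset V, r ∉ Z → (Z.filter (fun v => Odd (deg p q v))).card ≤ (cut p q Z).card) :
    ∃ m : V → ℕ, ∑ v, m v = Fintype.card E ∧
      (∀ X : Finset V, (inside p q X).card ≤ ∑ v ∈ X, m v) ∧
      ∀ X : Finset V, r ∉ X → 2 * (inside p q X).card + (cut p q X).card ≤ 2 * ∑ v ∈ X, m v := by
  classical
  let u : V → ℕ := fun v => (deg p q v + 1) / 2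
  have hu : ∀ v, 2 * u v = deg p q v + (if Odd (deg p q v) then 1 else 0) := by
    intro v
    simp only [u]
    split_ifs with hv
    · obtain ⟨k, hk⟩ := hv
      omega
    · rw [Nat.not_odd_iff_even] at hv
      obtain ⟨k, hk⟩ := hv
      omega
  have hsu : ∀ Z : Finset V, 2 * ∑ v ∈ Z, u v =
      2 * (inside p q Z).card + (cut p q Z).card +
        (Z.filter (fun v => Odd (deg p q v))).card := by
    intro Z
    rw [← sum_deg p q Z, Finset.card_filter, ← Finset.sum_add_distrib, Finset.mul_sum]
    exact Finset.sum_congr rfl (fun v _ => hu v)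
  -- the rest
  have hrest : ∑ v ∈ Finset.univ.erase r, u v ≤ Fintype.card E := by
    have h1 := hsu (Finset.univ.erase r)
    have h2 := h (Finset.univ.erase r) (by simp)
    have h3 := card_split p q (Finset.univ.erase r)
    omega
  let m : V → ℕ := fun v => if v = r then Fintype.card E - ∑ v ∈ Finset.univ.erase r, u v else u v
  have hm : ∀ X : Finset V, r ∉ X → ∑ v ∈ X, m v = ∑ v ∈ X, u v := by
    intro X hX
    apply Finset.sum_congr rfl
    intro v hv
    have : v ≠ r := fun hh => hX (hh ▸ hv)
    simp [m, this]
  have htot : ∑ v, m v = Fintype.card E := by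
    rw [← Finset.add_sum_erase Finset.univ m (Finset.mem_univ r)]
    rw [hm (Finset.univ.erase r) (by simp)]
    simp only [m, if_true]
    omega
  refine ⟨m, htot, ?_, ?_⟩
  · intro X
    by_cases hr : r ∈ X
    · have h1 : r ∉ Xᶜ := by simpa using hr
      have h2 := hm Xᶜ h1
      have h3 := hsu Xᶜ
      have h4 := h Xᶜ h1
      have h5 := card_split p q X
      rw [cut_compl] at h3 h4
      have h6 : ∑ v ∈ X, m v + ∑ v ∈ Xᶜ, m v = Fintype.card E := by
        rw [← htot]
        exact Finset.sum_add_sum_compl X m
      omega
    · have h1 := hm X hr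
      have h2 := hsu X
      omega
  · intro X hr
    have h1 := hm X hr
    have h2 := hsu X
    omega

/-- Disjoint feedback arc sets, few odd faces: D with a dual (F, lf, rt), every directed cycle of D
has at least 2k arcs, and for some face r every set Z of other faces contains at most as many
odd faces as it has boundary arcs. Then D has k disjoint feedback arc sets. -/
theorem fas_of_few {V A F : Type*} [Finite V] [DecidableEq V] [Fintype A] [Fintype F]
    [DecidableEq F]
    (tl hd : A → V) (lf rt : A → F) (hdual : DualPair tl hd lf rt) (r : F) (k : ℕ)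
    (hg : ∀ (n : ℕ) (c : Fin (n + 1) → A), (∀ i, hd (c i) = tl (c (i + 1))) →
      Function.Injective (fun i => tl (c i)) → 2 * k ≤ n + 1)
    (h : ∀ Z : Finset F, r ∉ Z →
      (Z.filter (fun f => Odd (deg lf rt f))).card ≤ (cut lf rt Z).card) :
    ∃ T : Fin k → Finset A, (∀ i j, i ≠ j → Disjoint (T i) (T j)) ∧
      ∀ i, ∀ (n : ℕ) (c : Fin (n + 1) → A), (∀ j, hd (c j) = tl (c (j + 1))) →
        Function.Injective (fun j => tl (c j)) → ∃ j, c j ∈ T i := by
  classical
  obtain ⟨m, hm1, hm2, hm3⟩ := vector_of_few lf rt r h
  apply fas_of_vector tl hd lf rt hdual r k m hm1 hm2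
  intro X hX hr hE
  have h1 := hm3 X hr
  have h2 : 2 * k ≤ (cut lf rt X).card := by
    rcases hE with hE | hE
    · have hXu : X ≠ Finset.univ := by
        rintro rfl
        exact hr (Finset.mem_univ r)
      have h3 := dicut_card_ge tl hd lf rt hdual (2 * k) hg X hX hXu hE
      refine le_trans h3 (Finset.card_le_card ?_)
      intro a ha
      rw [mem_leave] at ha
      simp only [cut, Finset.mem_filter, Finset.mem_univ, true_and]
      tauto
    · have hne : Xᶜ.Nonempty := ⟨r, by simpa using hr⟩
      have hXu : Xᶜ ≠ Finset.univ := by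
        intro hh
        obtain ⟨x, hx⟩ := hX
        have := Finset.eq_univ_iff_forall.1 hh x
        exact (Finset.mem_compl.1 this) hx
      have hE' : NoEnter lf rt Xᶜ := by
        intro a ha
        rw [Finset.mem_compl] at ha ⊢
        exact fun hh => ha (hE a hh)
      have h3 := dicut_card_ge tl hd lf rt hdual (2 * k) hg Xᶜ hne hXu hE'
      refine le_trans h3 (Finset.card_le_card ?_)
      intro a ha
      rw [mem_leave] at ha
      simp only [cut, Finset.mem_filter, Finset.mem_univ, true_and, Finset.mem_compl] at ha ⊢
      tauto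
  omega

end H37.OS
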