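import Pool.Agent.H37.OS.Edm

/-!
# Hakimi's orientation theorem and the passage from an out-degree vector to disjoint dijoins

E edges with ends p q : E → V; a vector m : V → ℕ of total |E| such that every set X of vertices
has at least as much m as it spans edges is the out-degree vector of an orientation.
-/

namespace H37.OS

variable {V E : Type*} [DecidableEq V]

/-- The edges spanned by X. -/
def inside (p q : E → V) [Fintype E] (X : Finset V) : Finset E :=
  Finset.univ.filter (fun e => p e ∈ X ∧ q e ∈ X)

theorem mem_inside {p q : E → V} [Fintype E] {X : Finset V} {e : E} :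
    e ∈ inside p q X ↔ p e ∈ X ∧ q e ∈ X := by
  simp [inside]

/-- Hakimi: there is a choice of one end of every edge with v chosen exactly m v times. -/
theorem hakimi [Fintype V] [Fintype E] (p q : E → V) (m : V → ℕ)
    (hsum : ∑ v, m v = Fintype.card E)
    (h : ∀ X : Finset V, (inside p q X).card ≤ ∑ v ∈ X, m v) :
    ∃ τ : E → V, (∀ e, τ e = p e ∨ τ e = q e) ∧
      ∀ v, (Finset.univ.filter (fun e => τ e = v)).card = m v := by
  classical
  let t : E → Finset (Σ v : V, Fin (m v)) := fun e =>
    Finset.univ.filter (fun x => x.1 = p e ∨ x.1 = q e)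
  have hall : ∀ s : Finset E, s.card ≤ (s.biUnion t).card := by
    intro s
    let X : Finset V := s.image p ∪ s.image q
    have h1 : s ⊆ inside p q X := by
      intro e he
      rw [mem_inside]
      exact ⟨Finset.mem_union.2 (Or.inl (Finset.mem_image_of_mem p he)),
        Finset.mem_union.2 (Or.inr (Finset.mem_image_of_mem q he))⟩
    have h2 : X.sigma (fun v => (Finset.univ : Finset (Fin (m v)))) ⊆ s.biUnion t := by
      intro x hx
      rw [Finset.mem_sigma] at hx
      rw [Finset.mem_biUnion]
      rcases Finset.mem_union.1 hx.1 with hh | hh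
      · obtain ⟨e, he, hpe⟩ := Finset.mem_image.1 hh
        exact ⟨e, he, by simp [t, hpe]⟩
      · obtain ⟨e, he, hqe⟩ := Finset.mem_image.1 hh
        exact ⟨e, he, by simp [t, hqe]⟩
    have h3 : (X.sigma (fun v => (Finset.univ : Finset (Fin (m v))))).card = ∑ v ∈ X, m v := by
      rw [Finset.card_sigma]
      simp
    calc s.card ≤ (inside p q X).card := Finset.card_le_card h1
      _ ≤ ∑ v ∈ X, m v := h X
      _ = _ := h3.symm
      _ ≤ _ := Finset.card_le_card h2
  obtain ⟨f, hf, hft⟩ := (Finset.all_card_le_biUnion_card_iff_exists_injective t).1 hall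
  have hbij : Function.Bijective f := by
    rw [Fintype.bijective_iff_injective_and_card]
    refine ⟨hf, ?_⟩
    rw [Fintype.card_sigma]
    simp [hsum]
  refine ⟨fun e => (f e).1, fun e => by simpa [t] using hft e, ?_⟩
  intro v
  have h1 : (Finset.univ.filter (fun e => (f e).1 = v)).card =
      (Finset.univ.filter (fun x : Σ v : V, Fin (m v) => x.1 = v)).card := by
    apply Finset.card_bij (fun e _ => f e)
    · intro e he
      simpa using he
    · intro a _ b _ hab
      exact hf hab
    · intro x hx
      obtain ⟨e, he⟩ := hbij.2 x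
      refine ⟨e, ?_, he⟩
      simp only [Finset.mem_filter, Finset.mem_univ, true_and] at hx ⊢
      rw [he]
      exact hx
  rw [h1]
  have h2 : (Finset.univ.filter (fun x : Σ v : V, Fin (m v) => x.1 = v)) =
      ({v} : Finset V).sigma (fun v => (Finset.univ : Finset (Fin (m v)))) := by
    ext x
    simp
  rw [h2, Finset.card_sigma]
  simp

/-- The edges chosen at the vertices of X are those which X spans and those which it sends out. -/
theorem chosen_card [Fintype V] [Fintype E] (p q τ : E → V) (hτ : ∀ e, τ e = p e ∨ τ e = q e)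
    (X : Finset V) :
    ∑ v ∈ X, (Finset.univ.filter (fun e => τ e = v)).card =
      (inside p q X).card +
        (Finset.univ.filter (fun e => τ e ∈ X ∧ ¬ (p e ∈ X ∧ q e ∈ X))).card := by
  classical
  have h1 : ∑ v ∈ X, (Finset.univ.filter (fun e => τ e = v)).card =
      (Finset.univ.filter (fun e => τ e ∈ X)).card := by
    rw [Finset.card_eq_sum_card_fiberwise (f := τ) (t := X)]
    · apply Finset.sum_congr rfl
      intro v hv
      congr 1
      ext e
      simp only [Finset.mem_filter, Finset.mem_univ, true_and]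
      constructor
      · rintro rfl
        exact ⟨hv, rfl⟩
      · exact fun hh => hh.2
    · intro e he
      simpa using he
  rw [h1, ← Finset.card_union_of_disjoint]
  · congr 1
    ext e
    simp only [Finset.mem_filter, Finset.mem_univ, true_and, Finset.mem_union, mem_inside]
    constructor
    · intro hh
      by_cases h2 : p e ∈ X ∧ q e ∈ X
      · exact Or.inl h2
      · exact Or.inr ⟨hh, h2⟩
    · rintro (hh | hh)
      · rcases hτ e with h2 | h2
        · rw [h2]
          exact hh.1
        · rw [h2]
          exact hh.2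
      · exact hh.1
  · rw [Finset.disjoint_left]
    intro e he hh
    simp only [Finset.mem_filter, Finset.mem_univ, true_and] at hh
    exact hh.2 (mem_inside.1 he)

/-- From an out-degree vector m for the underlying graph of a digraph D to k disjoint sets of arcs
meeting all directed cuts. -/
theorem dijoins_of_vector [Fintype V] [Fintype E] (tl hd : E → V) (r : V) (k : ℕ) (m : V → ℕ)
    (hsum : ∑ v, m v = Fintype.card E)
    (h0 : ∀ X : Finset V, (inside tl hd X).card ≤ ∑ v ∈ X, m v)
    (h1 : ∀ X : Finset V, X.Nonempty → r ∉ X → (NoEnter tl hd X ∨ NoLeave tl hd X) →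
      (inside tl hd X).card + k ≤ ∑ v ∈ X, m v) :
    ∃ P : Fin k → Finset E, (∀ i j, i ≠ j → Disjoint (P i) (P j)) ∧
      ∀ i, ∀ X : Finset V, X.Nonempty → X ≠ Finset.univ → NoEnter tl hd X →
        ∃ a ∈ P i, tl a ∈ X ∧ hd a ∉ X := by
  classical
  obtain ⟨τ, hτ, hm⟩ := hakimi tl hd m hsum h0
  have hout : ∀ X : Finset V, X.Nonempty → r ∉ X → (NoEnter tl hd X ∨ NoLeave tl hd X) →
      k ≤ (Finset.univ.filter (fun e => τ e ∈ X ∧ ¬ (tl e ∈ X ∧ hd e ∈ X))).card := by
    intro X hX hr hE
    have h2 := h1 X hX hr hE
    have h3 := chosen_card tl hd τ hτ X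
    have h4 : ∑ v ∈ X, (Finset.univ.filter (fun e => τ e = v)).card = ∑ v ∈ X, m v :=
      Finset.sum_congr rfl (fun v _ => hm v)
    omega
  apply dijoins_of_half tl hd r k (Finset.univ.filter (fun e => τ e = tl e))
  · intro X hX hr hE
    refine le_trans (hout X hX hr (Or.inl hE)) (Finset.card_le_card ?_)
    intro e he
    rw [Finset.mem_filter] at he
    rw [mem_leave, Finset.mem_filter]
    obtain ⟨_, h2, h3⟩ := he
    rcases hτ e with h4 | h4
    · rw [h4] at h2
      exact ⟨⟨Finset.mem_univ _, h4⟩, h2, fun hh => h3 ⟨h2, hh⟩⟩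
    · rw [h4] at h2
      exact absurd ⟨hE e h2, h2⟩ h3
  · intro X hX hr hE
    refine le_trans (hout X hX hr (Or.inr hE)) (Finset.card_le_card ?_)
    intro e he
    rw [Finset.mem_filter] at he
    rw [mem_leave, Finset.mem_sdiff, Finset.mem_filter]
    obtain ⟨_, h2, h3⟩ := he
    have h5 : tl e ∉ X := fun hh => h3 ⟨hh, hE e hh⟩
    rcases hτ e with h4 | h4
    · rw [h4] at h2
      exact absurd h2 h5
    · rw [h4] at h2
      refine ⟨⟨Finset.mem_univ _, ?_⟩, h2, h5⟩
      rintro ⟨_, h6⟩
      rw [h4] at h6
      exact h5 (h6 ▸ h2)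

end H37.OS
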