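import Pool.Agent.H37.OS.Dual

/-!
# A rotation system of Euler characteristic 2 is a dual pair

A finite set A of arcs; every arc a has two darts (a, true) at its tail and (a, false) at its head.
σ is a permutation of the darts (the rotation around the vertices).
-/

namespace H37.OS

variable {A : Type*}

/-- The other dart of the same arc. -/
def opp : Equiv.Perm (A × Bool) := (Equiv.refl A).prodCongr Equiv.boolNot

/-- The vertices: the cycles of σ. -/
def MV (σ : Equiv.Perm (A × Bool)) : Type _ := Quotient (Equiv.Perm.SameCycle.setoid σ)

/-- The faces: the cycles of the face permutation (first the other dart of the same arc, then the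
next dart around its vertex). -/
def MF (σ : Equiv.Perm (A × Bool)) : Type _ :=
  Quotient (Equiv.Perm.SameCycle.setoid (σ * opp))

/-- The vertex of a dart. -/
def atV (σ : Equiv.Perm (A × Bool)) (d : A × Bool) : MV σ := Quotient.mk _ d

/-- The face of a dart. -/
def atF (σ : Equiv.Perm (A × Bool)) (d : A × Bool) : MF σ := Quotient.mk _ d

/-- A connected plane map: the darts are connected by σ and opp, and V + F = E + 2. -/
def PlaneMap [Fintype A] (σ : Equiv.Perm (A × Bool)) : Prop :=
  (∀ S : Set (A × Bool), S.Nonempty → (∀ d ∈ S, σ d ∈ S ∧ opp d ∈ S) → S = Set.univ) ∧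
  Nat.card (MV σ) + Nat.card (MF σ) = Fintype.card A + 2

theorem opp_apply (d : A × Bool) : opp d = (d.1, !d.2) := rfl

theorem opp_opp (d : A × Bool) : opp (opp d) = d := by
  simp [opp_apply]

theorem atV_sigma (σ : Equiv.Perm (A × Bool)) (d : A × Bool) : atV σ (σ d) = atV σ d := by
  unfold atV
  apply Quotient.sound
  exact (Equiv.Perm.sameCycle_apply_left).2 (Equiv.Perm.SameCycle.refl σ d)

theorem atF_opp (σ : Equiv.Perm (A × Bool)) (d : A × Bool) :
    atF σ (σ d) = atF σ (opp d) := by
  have h1 : σ d = (σ * opp : Equiv.Perm (A × Bool)) (opp d) := by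
    rw [Equiv.Perm.mul_apply, opp_opp]
  rw [h1]
  unfold atF
  apply Quotient.sound
  exact (Equiv.Perm.sameCycle_apply_left).2 (Equiv.Perm.SameCycle.refl _ _)

/-- An invariant property of the darts. -/
private theorem all_darts [Fintype A] (σ : Equiv.Perm (A × Bool)) (h : PlaneMap σ)
    (Q : A × Bool → Prop) (d0 : A × Bool) (h0 : Q d0) (h1 : ∀ d, Q d → Q (σ d))
    (h2 : ∀ d, Q d → Q (opp d)) (d : A × Bool) : Q d := by
  have h3 := h.1 {d | Q d} ⟨d0, h0⟩ (fun d hd => ⟨h1 d hd, h2 d hd⟩)
  have h4 : d ∈ {d | Q d} := by
    rw [h3]
    trivial
  exact h4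

/-- Coboundaries are circulations. -/
private theorem cob_circ [Fintype A] {R : Type*} [AddCommGroup R] (σ : Equiv.Perm (A × Bool))
    [DecidableEq (MV σ)] (π : MF σ → R) (v : MV σ) :
    (∑ a ∈ Finset.univ.filter (fun a => atV σ (a, true) = v),
      (π (atF σ (a, true)) - π (atF σ (a, false)))) =
    ∑ a ∈ Finset.univ.filter (fun a => atV σ (a, false) = v),
      (π (atF σ (a, true)) - π (atF σ (a, false))) := by
  have h1 : ∑ d : A × Bool, (if atV σ d = v then π (atF σ d) - π (atF σ (opp d)) else 0) = 0 := by
    have h2 : ∀ d : A × Bool, (if atV σ d = v then π (atF σ d) - π (atF σ (opp d)) else 0) =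
        (if atV σ d = v then π (atF σ d) else 0) -
          (if atV σ (σ d) = v then π (atF σ (σ d)) else 0) := by
      intro d
      rw [atV_sigma, atF_opp]
      by_cases h3 : atV σ d = v
      · simp [h3]
      · simp [h3]
    rw [Finset.sum_congr rfl (fun d _ => h2 d), Finset.sum_sub_distrib,
      Equiv.sum_comp σ (fun d => if atV σ d = v then π (atF σ d) else 0), sub_self]
  rw [Fintype.sum_prod_type] at h1
  simp only [Fintype.sum_bool, opp_apply, Bool.not_true, Bool.not_false] at h1
  rw [Finset.sum_add_distrib] at h1
  rw [Finset.sum_filter, Finset.sum_filter]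
  have h3 : ∀ a : A, (if atV σ (a, false) = v then π (atF σ (a, false)) - π (atF σ (a, true))
      else 0) = -(if atV σ (a, false) = v then π (atF σ (a, true)) - π (atF σ (a, false))
      else 0) := by
    intro a
    split_ifs
    · abel
    · simp
  rw [Finset.sum_congr rfl (fun a _ => h3 a), Finset.sum_neg_distrib] at h1
  exact add_neg_eq_zero.1 h1

private theorem const_V [Fintype A] {R : Type*} (σ : Equiv.Perm (A × Bool)) (h : PlaneMap σ)
    (ψ : MV σ → R) (hψ : ∀ a, ψ (atV σ (a, true)) = ψ (atV σ (a, false))) (v w : MV σ) :
    ψ v = ψ w := by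
  obtain ⟨d, rfl⟩ := Quotient.exists_rep v
  obtain ⟨e, rfl⟩ := Quotient.exists_rep w
  have h1 := all_darts σ h (fun d => ψ (atV σ d) = ψ (atV σ e)) e rfl
    (by
      intro d hd
      rw [atV_sigma]
      exact hd)
    (by
      rintro ⟨a, b⟩ hd
      rw [opp_apply]
      cases b
      · simp only [Bool.not_false]
        rw [hψ a]
        exact hd
      · simp only [Bool.not_true]
        rw [← hψ a]
        exact hd) d
  exact h1

private theorem const_F [Fintype A] {R : Type*} (σ : Equiv.Perm (A × Bool)) (h : PlaneMap σ)
    (π : MF σ → R) (hπ : ∀ a, π (atF σ (a, true)) = π (atF σ (a, false))) (f g : MF σ) :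
    π f = π g := by
  obtain ⟨d, rfl⟩ := Quotient.exists_rep f
  obtain ⟨e, rfl⟩ := Quotient.exists_rep g
  have hopp : ∀ d, π (atF σ (opp d)) = π (atF σ d) := by
    rintro ⟨a, b⟩
    rw [opp_apply]
    cases b
    · simp only [Bool.not_false]
      exact hπ a
    · simp only [Bool.not_true]
      exact (hπ a).symm
  have h1 := all_darts σ h (fun d => π (atF σ d) = π (atF σ e)) e rfl
    (by
      intro d hd
      rw [atF_opp, hopp]
      exact hd)
    (by
      intro d hd
      rw [hopp]
      exact hd) d
  exact h1

open Classical in
/-- The dual pair of a plane map. -/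
theorem dualPair_of_map [Fintype A] (σ : Equiv.Perm (A × Bool)) (h : PlaneMap σ) :
    DualPair (fun a => atV σ (a, true)) (fun a => atV σ (a, false))
      (fun a => atF σ (a, true)) (fun a => atF σ (a, false)) := by
  have : Finite (MV σ) := Quotient.finite _
  have : Finite (MF σ) := Quotient.finite _
  have : Fintype (MV σ) := Fintype.ofFinite _
  have : Fintype (MF σ) := Fintype.ofFinite _
  refine ⟨?_, ?_⟩
  · intro x
    constructor
    · intro hx
      -- the incidence matrix
      let M : Matrix (MV σ) A ℚ := fun v a =>
        (if atV σ (a, true) = v then 1 else 0) - (if atV σ (a, false) = v then 1 else 0)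
      have hM : ∀ (y : A → ℚ) (v : MV σ), M.mulVec y v =
          (∑ a ∈ Finset.univ.filter (fun a => atV σ (a, true) = v), y a) -
            ∑ a ∈ Finset.univ.filter (fun a => atV σ (a, false) = v), y a := by
        intro y v
        unfold Matrix.mulVec dotProduct
        rw [Finset.sum_filter, Finset.sum_filter, ← Finset.sum_sub_distrib]
        apply Finset.sum_congr rfl
        intro a _
        simp only [M]
        split_ifs <;> ring
      have hMT : ∀ (ψ : MV σ → ℚ) (a : A), M.transpose.mulVec ψ a =
          ψ (atV σ (a, true)) - ψ (atV σ (a, false)) := by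
        intro ψ a
        unfold Matrix.mulVec dotProduct
        have h1 : ∀ v, M.transpose a v * ψ v = (if atV σ (a, true) = v then ψ v else 0) -
            (if atV σ (a, false) = v then ψ v else 0) := by
          intro v
          show ((if atV σ (a, true) = v then 1 else 0) -
            (if atV σ (a, false) = v then 1 else 0)) * ψ v = _
          split_ifs <;> ring
        rw [Finset.sum_congr rfl (fun v _ => h1 v), Finset.sum_sub_distrib, Finset.sum_ite_eq,
          Finset.sum_ite_eq, if_pos (Finset.mem_univ _), if_pos (Finset.mem_univ _)]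
      let N : (MF σ → ℚ) →ₗ[ℚ] (A → ℚ) :=
        { toFun := fun π a => π (atF σ (a, true)) - π (atF σ (a, false))
          map_add' := by
            intro π π'
            ext a
            simp only [Pi.add_apply]
            ring
          map_smul' := by
            intro c π
            ext a
            simp only [Pi.smul_apply, smul_eq_mul, RingHom.id_apply]
            ring }
      have hNle : LinearMap.range N ≤ LinearMap.ker M.mulVecLin := by
        rintro _ ⟨π, rfl⟩
        rw [LinearMap.mem_ker]
        ext v
        rw [Matrix.mulVecLin_apply, hM]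
        exact sub_eq_zero.2 (cob_circ σ π v)
      have hkT : Module.finrank ℚ (LinearMap.ker M.transpose.mulVecLin) ≤ 1 := by
        have h1 : LinearMap.ker M.transpose.mulVecLin ≤
            Submodule.span ℚ {(fun _ => 1 : MV σ → ℚ)} := by
          intro ψ hψ
          rw [LinearMap.mem_ker] at hψ
          have h2 : ∀ a, ψ (atV σ (a, true)) = ψ (atV σ (a, false)) := by
            intro a
            have h3 := congrFun hψ a
            rw [Matrix.mulVecLin_apply, hMT] at h3
            exact sub_eq_zero.1 h3
          rw [Submodule.mem_span_singleton]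
          by_cases hne : Nonempty (MV σ)
          · obtain ⟨v0⟩ := hne
            refine ⟨ψ v0, ?_⟩
            ext v
            simp only [Pi.smul_apply, smul_eq_mul, mul_one]
            exact const_V σ h ψ h2 v0 v
          · refine ⟨0, ?_⟩
            ext v
            exact absurd ⟨v⟩ hne
        refine le_trans (Submodule.finrank_mono h1) ?_
        exact (finrank_span_le_card _).trans (by simp)
      have hkN : Module.finrank ℚ (LinearMap.ker N) ≤ 1 := by
        have h1 : LinearMap.ker N ≤ Submodule.span ℚ {(fun _ => 1 : MF σ → ℚ)} := by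
          intro π hπ
          rw [LinearMap.mem_ker] at hπ
          have h2 : ∀ a, π (atF σ (a, true)) = π (atF σ (a, false)) := by
            intro a
            have h3 := congrFun hπ a
            exact sub_eq_zero.1 h3
          rw [Submodule.mem_span_singleton]
          by_cases hne : Nonempty (MF σ)
          · obtain ⟨f0⟩ := hne
            refine ⟨π f0, ?_⟩
            ext f
            simp only [Pi.smul_apply, smul_eq_mul, mul_one]
            exact const_F σ h π h2 f0 f
          · refine ⟨0, ?_⟩
            ext f
            exact absurd ⟨f⟩ hne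
        refine le_trans (Submodule.finrank_mono h1) ?_
        exact (finrank_span_le_card _).trans (by simp)
      have e1 := LinearMap.finrank_range_add_finrank_ker M.mulVecLin
      have e2 := LinearMap.finrank_range_add_finrank_ker M.transpose.mulVecLin
      have e3 := LinearMap.finrank_range_add_finrank_ker N
      have e4 : M.transpose.rank = M.rank := Matrix.rank_transpose M
      unfold Matrix.rank at e4
      rw [Module.finrank_fintype_fun_eq_card] at e1 e2 e3
      have e5 := h.2
      rw [Nat.card_eq_fintype_card, Nat.card_eq_fintype_card] at e5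
      have heq : LinearMap.range N = LinearMap.ker M.mulVecLin := by
        apply Submodule.eq_of_le_of_finrank_le hNle
        omega
      have hxk : (fun a => (x a : ℚ)) ∈ LinearMap.ker M.mulVecLin := by
        rw [LinearMap.mem_ker]
        ext v
        rw [Matrix.mulVecLin_apply, hM]
        have h1 := hx v
        have h2 : ((∑ a ∈ Finset.univ.filter (fun a => atV σ (a, true) = v), x a : ℤ) : ℚ) =
            (∑ a ∈ Finset.univ.filter (fun a => atV σ (a, false) = v), x a : ℤ) := by
          exact_mod_cast h1
        push_cast at h2
        rw [h2]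
        simp
      rw [← heq] at hxk
      obtain ⟨π, hπ⟩ := hxk
      have hπ' : ∀ a, π (atF σ (a, true)) - π (atF σ (a, false)) = (x a : ℚ) := fun a =>
        congrFun hπ a
      by_cases hA : Nonempty A
      · obtain ⟨a0⟩ := hA
        let d0 : A × Bool := (a0, true)
        have hopp : ∀ d : A × Bool, (∃ z : ℤ, π (atF σ d) - π (atF σ d0) = z) →
            ∃ z : ℤ, π (atF σ (opp d)) - π (atF σ d0) = z := by
          rintro ⟨a, b⟩ ⟨z, hz⟩
          rw [opp_apply]
          have h1 := hπ' a
          cases b
          · refine ⟨z + x a, ?_⟩
            simp only [Bool.not_false]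
            push_cast
            linarith
          · refine ⟨z - x a, ?_⟩
            simp only [Bool.not_true]
            push_cast
            linarith
        have hint : ∀ d : A × Bool, ∃ z : ℤ, π (atF σ d) - π (atF σ d0) = z :=
          all_darts σ h (fun d => ∃ z : ℤ, π (atF σ d) - π (atF σ d0) = z) d0 ⟨0, by simp⟩
            (by
              intro d hd
              rw [atF_opp]
              exact hopp d hd) hopp
        refine ⟨fun f => ⌊π f - π (atF σ d0)⌋, ?_⟩
        intro a
        obtain ⟨z1, hz1⟩ := hint (a, true)
        obtain ⟨z2, hz2⟩ := hint (a, false)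
        show x a = ⌊π (atF σ (a, true)) - π (atF σ d0)⌋ -
          ⌊π (atF σ (a, false)) - π (atF σ d0)⌋
        rw [hz1, hz2, Int.floor_intCast, Int.floor_intCast]
        have h1 := hπ' a
        have h2 : (x a : ℚ) = (z1 - z2 : ℤ) := by
          push_cast
          linarith
        exact_mod_cast h2
      · exact ⟨fun _ => 0, fun a => absurd ⟨a⟩ hA⟩
    · rintro ⟨π, hπ⟩ v
      rw [Finset.sum_congr rfl (fun a _ => hπ a), Finset.sum_congr rfl (fun a _ => hπ a)]
      convert cob_circ σ π v
  · intro π hπ f g
    exact const_F σ h π hπ f g

end H37.OS
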