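import Pool.Agent.H37.OS.Rest

/-!
# Two sources

If every nonempty set which no arc enters contains the root or a second vertex x, and every
directed cut has at least 2t arcs, there is a good out-degree vector.
-/

namespace H37.OS

variable {V E : Type*} [DecidableEq V] [Fintype V] [Fintype E]

/-- Excess of f at v. -/
def exc (p q : E → V) (f : E → ℤ) (v : V) : ℤ :=
  (∑ e ∈ Finset.univ.filter (fun e => p e = v), f e) -
    ∑ e ∈ Finset.univ.filter (fun e => q e = v), f e

omit [Fintype V] in
private theorem exc_add (p q : E → V) (f g : E → ℤ) (v : V) :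
    exc p q (fun e => f e + g e) v = exc p q f v + exc p q g v := by
  unfold exc
  rw [Finset.sum_add_distrib, Finset.sum_add_distrib]
  ring

omit [Fintype V] in
private theorem exc_single [DecidableEq E] (p q : E → V) (e : E) (c : ℤ) (v : V) :
    exc p q (fun b => if b = e then c else 0) v =
      (if p e = v then c else 0) - (if q e = v then c else 0) := by
  unfold exc
  rw [Finset.sum_filter, Finset.sum_filter]
  congr 1
  · rw [Finset.sum_eq_single e]
    · simp
    · intro b _ hb
      simp [hb]
    · intro hh
      exact absurd (Finset.mem_univ e) hh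
  · rw [Finset.sum_eq_single e]
    · simp
    · intro b _ hb
      simp [hb]
    · intro hh
      exact absurd (Finset.mem_univ e) hh

/-- Vertices reached from x in at most n steps, forwards in P, backwards anywhere. -/
private def lev (p q : E → V) (P : Finset E) (x : V) : ℕ → V → Prop
  | 0, v => v = x
  | n + 1, v => lev p q P x n v ∨ ∃ e, (e ∈ P ∧ lev p q P x n (p e) ∧ q e = v) ∨
      (lev p q P x n (q e) ∧ p e = v)

omit [Fintype V] in
private theorem lev_flow (p q : E → V) (P : Finset E) (x : V) (n : ℕ) :
    ∀ v, lev p q P x n v → ∃ f : E → ℤ,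
      (∀ u, exc p q f u = (if u = x then 1 else 0) - (if u = v then 1 else 0)) ∧
      (∀ e, f e ≤ 1) ∧ (∀ e, e ∉ P → f e ≤ 0) ∧
      ∀ e, f e ≠ 0 → lev p q P x n (p e) ∧ lev p q P x n (q e) := by
  classical
  induction n with
  | zero =>
    intro v hv
    refine ⟨fun _ => 0, ?_, by simp, by simp, by simp⟩
    intro u
    have : v = x := hv
    subst this
    simp [exc]
  | succ n ih =>
    intro v hv
    by_cases hvn : lev p q P x n v
    · obtain ⟨f, h1, h2, h3, h4⟩ := ih v hvn
      exact ⟨f, h1, h2, h3, fun e he => ⟨Or.inl (h4 e he).1, Or.inl (h4 e he).2⟩⟩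
    · rcases hv with hv | ⟨e, ⟨heP, hle, hev⟩ | ⟨hle, hev⟩⟩
      · exact absurd hv hvn
      · obtain ⟨f, h1, h2, h3, h4⟩ := ih (p e) hle
        have hfe : f e = 0 := by
          by_contra hne
          exact hvn (hev ▸ (h4 e hne).2)
        refine ⟨fun b => f b + (if b = e then 1 else 0), ?_, ?_, ?_, ?_⟩
        · intro u
          rw [exc_add, exc_single, h1 u, hev]
          by_cases a1 : u = x <;> by_cases a2 : p e = u <;> by_cases a3 : u = v <;>
            simp [a1, a2, a3, eq_comm] <;> simp_all [eq_comm]
        · intro b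
          by_cases hb : b = e
          · subst hb
            simp [hfe]
          · simp [hb, h2 b]
        · intro b hb
          have : b ≠ e := fun hh => hb (hh ▸ heP)
          simp [this, h3 b hb]
        · intro b hb
          by_cases hbe : b = e
          · subst hbe
            exact ⟨Or.inl hle, Or.inr ⟨b, Or.inl ⟨heP, hle, rfl⟩⟩⟩
          · have : f b ≠ 0 := by simpa [hbe] using hb
            exact ⟨Or.inl (h4 b this).1, Or.inl (h4 b this).2⟩
      · obtain ⟨f, h1, h2, h3, h4⟩ := ih (q e) hle
        have hfe : f e = 0 := by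
          by_contra hne
          exact hvn (hev ▸ (h4 e hne).1)
        refine ⟨fun b => f b + (if b = e then -1 else 0), ?_, ?_, ?_, ?_⟩
        · intro u
          rw [exc_add, exc_single, h1 u, hev]
          by_cases a1 : u = x <;> by_cases a2 : q e = u <;> by_cases a3 : u = v <;>
            simp [a1, a2, a3, eq_comm] <;> simp_all [eq_comm]
        · intro b
          by_cases hb : b = e
          · subst hb
            simp [hfe]
          · simp [hb, h2 b]
        · intro b hb
          by_cases hbe : b = e
          · subst hbe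
            simp [hfe]
          · simp [hbe, h3 b hb]
        · intro b hb
          by_cases hbe : b = e
          · subst hbe
            exact ⟨Or.inr ⟨b, Or.inr ⟨hle, rfl⟩⟩, Or.inl hle⟩
          · have : f b ≠ 0 := by simpa [hbe] using hb
            exact ⟨Or.inl (h4 b this).1, Or.inl (h4 b this).2⟩

omit [Fintype V] in
private theorem exc_sum (p q : E → V) {n : ℕ} (g : Fin n → E → ℤ) (v : V) :
    exc p q (fun e => ∑ i, g i e) v = ∑ i, exc p q (g i) v := by
  unfold exc
  rw [Finset.sum_sub_distrib, Finset.sum_comm, Finset.sum_comm (s := Finset.univ.filter _)]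

omit [Fintype V] in
private theorem exc_set (p q : E → V) (f : E → ℤ) (X : Finset V) (hE : NoEnter p q X) :
    ∑ v ∈ X, exc p q f v = ∑ e ∈ cut p q X, f e := by
  classical
  have key : ∀ g : E → V, ∑ v ∈ X, ∑ e ∈ Finset.univ.filter (fun e => g e = v), f e =
      ∑ e ∈ Finset.univ.filter (fun e => g e ∈ X), f e := by
    intro g
    rw [← Finset.sum_fiberwise_of_maps_to (s := Finset.univ.filter (fun e => g e ∈ X))
      (t := X) (g := g) (fun e he => by simpa using he)]
    apply Finset.sum_congr rfl
    intro v hv
    apply Finset.sum_congr _ (fun _ _ => rfl)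
    ext e
    simp only [Finset.mem_filter, Finset.mem_univ, true_and]
    constructor
    · rintro rfl
      exact ⟨hv, rfl⟩
    · exact fun hh => hh.2
  unfold exc
  rw [Finset.sum_sub_distrib, key, key]
  have h1 : Finset.univ.filter (fun e => p e ∈ X) =
      cut p q X ∪ Finset.univ.filter (fun e => q e ∈ X) := by
    ext e
    have h2 := hE e
    simp only [cut, Finset.mem_filter, Finset.mem_univ, true_and, Finset.mem_union]
    tauto
  have h3 : Disjoint (cut p q X) (Finset.univ.filter (fun e => q e ∈ X)) := by
    rw [Finset.disjoint_left]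
    intro e he he'
    have h2 := hE e
    simp only [cut, Finset.mem_filter, Finset.mem_univ, true_and] at he he'
    tauto
  rw [h1, Finset.sum_union h3]
  ring

/-- 2t units of flow from x to r, at most one forwards on every edge. -/
theorem flow_exists (p q : E → V) (r x : V) (k : ℕ)
    (h : ∀ X : Finset V, X.Nonempty → r ∉ X → NoEnter p q X → k ≤ (cut p q X).card) :
    ∃ f : E → ℤ, (∀ u, exc p q f u = k * ((if u = x then 1 else 0) - (if u = r then 1 else 0))) ∧
      ∀ e, f e ≤ 1 := by
  classical
  obtain ⟨P, hP1, hP2, hP3⟩ := ringSplit p q r k Finset.univ (by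
    intro X hX hr hE
    refine le_trans (h X hX hr hE) (Finset.card_le_card ?_)
    intro e he
    rw [mem_leave]
    have h2 := hE e
    simp only [cut, Finset.mem_filter, Finset.mem_univ, true_and] at he ⊢
    tauto)
  have hreach : ∀ i, ∃ n, lev p q (P i) x n r := by
    intro i
    by_contra hcon
    push Not at hcon
    let X : Finset V := Finset.univ.filter (fun v => ∃ n, lev p q (P i) x n v)
    have hE : NoEnter p q X := by
      intro e he
      simp only [X, Finset.mem_filter, Finset.mem_univ, true_and] at he ⊢
      obtain ⟨n, hn⟩ := he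
      exact ⟨n + 1, Or.inr ⟨e, Or.inr ⟨hn, rfl⟩⟩⟩
    obtain ⟨e, he⟩ := hP3 i X ⟨x, by
      simp only [X, Finset.mem_filter, Finset.mem_univ, true_and]
      exact ⟨0, rfl⟩⟩ (by
      simp only [X, Finset.mem_filter, Finset.mem_univ, true_and, not_exists]
      exact hcon) hE
    rw [mem_leave] at he
    obtain ⟨h1, h2, h3⟩ := he
    simp only [X, Finset.mem_filter, Finset.mem_univ, true_and] at h2 h3
    obtain ⟨n, hn⟩ := h2
    exact h3 ⟨n + 1, Or.inr ⟨e, Or.inl ⟨h1, hn, rfl⟩⟩⟩
  have hflow : ∀ i, ∃ f : E → ℤ,
      (∀ u, exc p q f u = (if u = x then 1 else 0) - (if u = r then 1 else 0)) ∧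
      (∀ e, f e ≤ 1) ∧ ∀ e, e ∉ P i → f e ≤ 0 := by
    intro i
    obtain ⟨n, hn⟩ := hreach i
    obtain ⟨f, h1, h2, h3, _⟩ := lev_flow p q (P i) x n r hn
    exact ⟨f, h1, h2, h3⟩
  choose g hg1 hg2 hg3 using hflow
  refine ⟨fun e => ∑ i, g i e, ?_, ?_⟩
  · intro u
    rw [exc_sum]
    rw [Finset.sum_congr rfl (fun i _ => hg1 i u), Finset.sum_const, Finset.card_univ,
      Fintype.card_fin, nsmul_eq_mul]
  · intro e
    show ∑ i, g i e ≤ 1
    by_cases he : ∃ i, e ∈ P i
    · obtain ⟨i, hi⟩ := he
      rw [← Finset.add_sum_erase Finset.univ (fun i => g i e) (Finset.mem_univ i)]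
      have h1 : ∑ j ∈ Finset.univ.erase i, g j e ≤ 0 := by
        apply Finset.sum_nonpos
        intro j hj
        apply hg3 j e
        intro hh
        exact Finset.disjoint_left.1 (hP2 i j (Ne.symm (Finset.mem_erase.1 hj).1)) hi hh
      have h2 := hg2 i e
      linarith
    · push Not at he
      have : ∑ i, g i e ≤ 0 := Finset.sum_nonpos (fun i _ => hg3 i e (he i))
      linarith

/-- Two sources: every nonempty set which no edge enters contains r or x. -/
theorem vector_one_source (p q : E → V) (r x : V) (t : ℕ)
    (hx : ∀ X : Finset V, X.Nonempty → r ∉ X → NoEnter p q X → x ∈ X)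
    (h : ∀ X : Finset V, X.Nonempty → r ∉ X → (NoEnter p q X ∨ NoLeave p q X) →
      2 * t ≤ (cut p q X).card) :
    ∃ m : V → ℕ, ∑ v, m v = Fintype.card E ∧
      (∀ X : Finset V, (inside p q X).card ≤ ∑ v ∈ X, m v) ∧
      ∀ X : Finset V, X.Nonempty → r ∉ X → (NoEnter p q X ∨ NoLeave p q X) →
        (inside p q X).card + t ≤ ∑ v ∈ X, m v := by
  classical
  obtain ⟨f, hf1, hf2⟩ := flow_exists p q r x (2 * t)
    (fun X h1 h2 h3 => h X h1 h2 (Or.inl h3))
  obtain ⟨μ, h1, h2, h3⟩ := pairing_of_edges p q (Finset.univ.filter (fun e => ¬ Odd (f e)))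
  have hpar : ∀ s : Finset E, (2 : ℤ) ∣ (∑ e ∈ s, f e) - (s.filter (fun e => Odd (f e))).card := by
    intro s
    have h4 : (∑ e ∈ s, f e) - (s.filter (fun e => Odd (f e))).card =
        ∑ e ∈ s, (f e - (if Odd (f e) then 1 else 0)) := by
      rw [Finset.sum_sub_distrib, Finset.card_filter]
      push_cast
      rfl
    rw [h4]
    apply Finset.dvd_sum
    intro e _
    by_cases h5 : Odd (f e)
    · rw [if_pos h5]
      obtain ⟨k, hk⟩ := h5
      exact ⟨k, by omega⟩
    · rw [if_neg h5, sub_zero]
      rw [Int.not_odd_iff_even] at h5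
      obtain ⟨k, hk⟩ := h5
      exact ⟨k, by omega⟩
  have hdeg : ∀ v, Odd (degS p q (Finset.univ.filter (fun e => ¬ Odd (f e))) v) ↔
      Odd (deg p q v) := by
    intro v
    have a1 := hpar (Finset.univ.filter (fun e => p e = v))
    have a2 := hpar (Finset.univ.filter (fun e => q e = v))
    have a3 := hf1 v
    unfold exc at a3
    have b1 : (Finset.univ.filter (fun e => p e = v)).card =
        ((Finset.univ.filter (fun e => ¬ Odd (f e))).filter (fun e => p e = v)).card +
        ((Finset.univ.filter (fun e => p e = v)).filter (fun e => Odd (f e))).card := by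
      rw [← Finset.card_union_of_disjoint]
      · congr 1
        ext e
        simp only [Finset.mem_filter, Finset.mem_univ, true_and, Finset.mem_union]
        tauto
      · rw [Finset.disjoint_left]
        intro e he he'
        simp only [Finset.mem_filter, Finset.mem_univ, true_and] at he he'
        tauto
    have b2 : (Finset.univ.filter (fun e => q e = v)).card =
        ((Finset.univ.filter (fun e => ¬ Odd (f e))).filter (fun e => q e = v)).card +
        ((Finset.univ.filter (fun e => q e = v)).filter (fun e => Odd (f e))).card := by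
      rw [← Finset.card_union_of_disjoint]
      · congr 1
        ext e
        simp only [Finset.mem_filter, Finset.mem_univ, true_and, Finset.mem_union]
        tauto
      · rw [Finset.disjoint_left]
        intro e he he'
        simp only [Finset.mem_filter, Finset.mem_univ, true_and] at he he'
        tauto
    unfold degS deg
    obtain ⟨c1, hc1⟩ := a1
    obtain ⟨c2, hc2⟩ := a2
    set A1 := ((Finset.univ.filter (fun e => p e = v)).filter (fun e => Odd (f e))).card
    set A2 := ((Finset.univ.filter (fun e => q e = v)).filter (fun e => Odd (f e))).card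
    have h6 : Even (A1 + A2) := by
      have h7 : Even ((A1 : ℤ) + A2) := by
        rw [even_iff_two_dvd]
        push_cast at a3
        refine ⟨c1 * (-1) + c2 * (-1) + (∑ e ∈ Finset.univ.filter (fun e => q e = v), f e) +
          t * ((if v = x then 1 else 0) - (if v = r then 1 else 0)), ?_⟩
        linarith
      exact_mod_cast h7
    obtain ⟨c, hc⟩ := h6
    constructor
    · rintro ⟨k, hk⟩
      exact ⟨k + c, by omega⟩
    · rintro ⟨k, hk⟩
      exact ⟨k - c, by omega⟩
  have hcut : ∀ X : Finset V, (cut p q X).card =
      (cutS p q (Finset.univ.filter (fun e => ¬ Odd (f e))) X).card +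
        ((cut p q X).filter (fun e => Odd (f e))).card := by
    intro X
    rw [← Finset.card_union_of_disjoint]
    · congr 1
      ext e
      simp only [cutS, cut, Finset.mem_filter, Finset.mem_univ, true_and, Finset.mem_union]
      tauto
    · rw [Finset.disjoint_left]
      intro e he he'
      simp only [cutS, cut, Finset.mem_filter, Finset.mem_univ, true_and] at he he'
      tauto
  apply vector_of_pairing p q r t μ h1
  · intro v
    rw [h2 v, hdeg v]
  · intro Z
    have h4 := h3 Z
    have h5 := hcut Z
    omega
  · intro X hX hr hE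
    have h4 := h3 X
    have h5 := hcut X
    have h6 := exc_set p q f X hE
    have h7 : ∑ v ∈ X, exc p q f v = 2 * t := by
      rw [Finset.sum_congr rfl (fun v _ => hf1 v), ← Finset.mul_sum, Finset.sum_sub_distrib]
      rw [Finset.sum_ite_eq', Finset.sum_ite_eq', if_pos (hx X hX hr hE), if_neg hr]
      push_cast
      ring
    have h8 : ∑ e ∈ cut p q X, f e ≤ ((cut p q X).filter (fun e => Odd (f e))).card := by
      rw [Finset.card_filter]
      push_cast
      apply Finset.sum_le_sum
      intro e _
      by_cases h9 : Odd (f e)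
      · rw [if_pos h9]
        exact hf2 e
      · rw [if_neg h9]
        have h10 := hf2 e
        have h11 : f e ≠ 1 := fun hh => h9 (by rw [hh]; exact odd_one)
        omega
    have h9 : (2 * t : ℤ) ≤ ((cut p q X).filter (fun e => Odd (f e))).card := by linarith
    have h10 : 2 * t ≤ ((cut p q X).filter (fun e => Odd (f e))).card := by exact_mod_cast h9
    omega
  · intro Y hY hr hE
    exact h Y hY hr (Or.inr hE)

end H37.OS
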