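import Pool.Agent.H37.OS.Comp

/-!
# From a pairing of the odd vertices to an out-degree vector
-/

namespace H37.OS

variable {V E : Type*} [DecidableEq V] [Fintype V] [Fintype E]

/-- Pairs whose remaining elements lie in U, counted by elements. -/
private def cs (μ : V → V) (S U : Finset V) : Finset V :=
  Finset.univ.filter (fun v => μ v ≠ v ∧ (v ∈ S ∨ v ∈ U) ∧ (μ v ∈ S ∨ μ v ∈ U))

private theorem mem_cs {μ : V → V} {S U : Finset V} {v : V} :
    v ∈ cs μ S U ↔ μ v ≠ v ∧ (v ∈ S ∨ v ∈ U) ∧ (μ v ∈ S ∨ μ v ∈ U) := by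
  simp [cs]

private theorem cs_even (μ : V → V) (hμ : ∀ v, μ (μ v) = v) (S U : Finset V) :
    Even (cs μ S U).card := by
  have h1 : ∑ v ∈ cs μ S U, (1 : ZMod 2) = 0 := by
    refine Finset.sum_involution (fun v _ => μ v) ?_ ?_ ?_ ?_
    · intro v _
      decide
    · intro v hv _
      exact (mem_cs.1 hv).1
    · intro v hv
      rw [mem_cs] at hv ⊢
      rw [hμ]
      exact ⟨fun hh => hv.1 hh.symm, hv.2.2, hv.2.1⟩
    · intro v _
      exact hμ v
  rw [Finset.sum_const, nsmul_eq_mul, mul_one] at h1
  have h2 := (ZMod.natCast_eq_zero_iff _ 2).1 h1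
  exact (even_iff_two_dvd).2 h2

/-- The trick of Rado: one element of every pair. -/
theorem exists_choice (μ : V → V) (hμ : ∀ v, μ (μ v) = v) (R : Finset V → Prop)
    (K : Finset V → ℤ)
    (hRu : ∀ U U', R U → R U' → R (U ∪ U')) (hRi : ∀ U U', R U → R U' → R (U ∩ U'))
    (hsub : ∀ U U', R U → R U' → K (U ∪ U') + K (U ∩ U') ≤ K U + K U')
    (hev : ∀ U, R U → Even (K U))
    (h0 : ∀ U, R U → ((U.filter (fun v => μ v ≠ v)).card : ℤ) ≤ K U) :
    ∃ N : Finset V, (∀ v ∈ N, μ v ≠ v) ∧ (∀ v, μ v ≠ v → (v ∈ N ↔ μ v ∉ N)) ∧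
      ∀ U, R U → 2 * ((N ∩ U).card : ℤ) ≤ K U := by
  classical
  let P : Finset V → Prop := fun S => (∀ v ∈ S, μ v ≠ v) ∧ (∀ v ∈ S, μ v ∉ S) ∧
    ∀ U, R U → ((cs μ S U).card : ℤ) ≤ K U
  have hP0 : P ∅ := by
    refine ⟨by simp, by simp, ?_⟩
    intro U hU
    refine le_trans ?_ (h0 U hU)
    have : (cs μ ∅ U).card ≤ (U.filter (fun v => μ v ≠ v)).card := by
      apply Finset.card_le_card
      intro v hv
      rw [mem_cs] at hv
      rw [Finset.mem_filter]
      exact ⟨by simpa using hv.2.1, hv.1⟩
    exact_mod_cast this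
  obtain ⟨S, hS, hmax⟩ : ∃ S, P S ∧ ∀ S', P S' → S'.card ≤ S.card := by
    have hne : (Finset.univ.filter P).Nonempty := ⟨∅, by simpa using hP0⟩
    obtain ⟨S, hS, hm⟩ := Finset.exists_max_image _ (fun S : Finset V => S.card) hne
    exact ⟨S, by simpa using hS, fun S' hS' => hm S' (by simpa using hS')⟩
  obtain ⟨hS1, hS2, hS3⟩ := hS
  -- one blocking set
  have key : ∀ x, μ x ≠ x → x ∉ S → μ x ∉ S →
      ∃ U, R U ∧ x ∉ U ∧ μ x ∈ U ∧ K U = (cs μ S U).card := by
    intro x hx hxS hyS
    have hnot : ¬ P (insert x S) := by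
      intro hh
      have := hmax _ hh
      rw [Finset.card_insert_of_notMem hxS] at this
      omega
    have h1 : ∀ v ∈ insert x S, μ v ≠ v := by
      intro v hv
      rcases Finset.mem_insert.1 hv with rfl | hv
      · exact hx
      · exact hS1 v hv
    have h2 : ∀ v ∈ insert x S, μ v ∉ insert x S := by
      intro v hv hh
      rcases Finset.mem_insert.1 hv with rfl | hv
      · rcases Finset.mem_insert.1 hh with hh | hh
        · exact hx hh
        · exact hyS hh
      · rcases Finset.mem_insert.1 hh with hh | hh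
        · have h3 : v = μ x := by rw [← hh, hμ]
          exact hyS (h3 ▸ hv)
        · exact hS2 v hv hh
    have h3 : ∃ U, R U ∧ K U < ((cs μ (insert x S) U).card : ℤ) := by
      by_contra hcon
      push Not at hcon
      exact hnot ⟨h1, h2, hcon⟩
    obtain ⟨U, hU, hKU⟩ := h3
    have hle := hS3 U hU
    -- comparison
    have hcs : ∀ v, v ∈ cs μ (insert x S) U → v ∉ cs μ S U → (v = x ∨ v = μ x) ∧
        x ∉ U ∧ μ x ∈ U := by
      intro v hv hv'
      rw [mem_cs] at hv hv'
      rw [Finset.mem_insert, Finset.mem_insert] at hv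
      obtain ⟨a1, a2, a3⟩ := hv
      by_cases hvx : v = x
      · subst hvx
        have h4 : μ v ∈ U := by
          rcases a3 with (hh | hh) | hh
          · exact absurd hh hx
          · exact absurd hh hyS
          · exact hh
        refine ⟨Or.inl rfl, ?_, h4⟩
        intro hh
        exact hv' ⟨a1, Or.inr hh, Or.inr h4⟩
      · by_cases hvy : μ v = x
        · have h5 : v = μ x := by rw [← hvy, hμ]
          have h4 : v ∈ U := by
            rcases a2 with (hh | hh) | hh
            · exact absurd hh hvx
            · rw [h5] at hh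
              exact absurd hh hyS
            · exact hh
          refine ⟨Or.inr h5, ?_, h5 ▸ h4⟩
          intro hh
          exact hv' ⟨a1, Or.inr h4, Or.inr (hvy ▸ hh)⟩
        · exfalso
          apply hv'
          refine ⟨a1, ?_, ?_⟩
          · rcases a2 with (hh | hh) | hh
            · exact absurd hh hvx
            · exact Or.inl hh
            · exact Or.inr hh
          · rcases a3 with (hh | hh) | hh
            · exact absurd hh hvy
            · exact Or.inl hh
            · exact Or.inr hh
    have hex : ∃ v, v ∈ cs μ (insert x S) U ∧ v ∉ cs μ S U := by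
      by_contra hcon
      push Not at hcon
      have h4 : (cs μ (insert x S) U).card ≤ (cs μ S U).card :=
        Finset.card_le_card (fun v hv => hcon v hv)
      have h5 : ((cs μ (insert x S) U).card : ℤ) ≤ (cs μ S U).card := by exact_mod_cast h4
      omega
    obtain ⟨v, hv, hv'⟩ := hex
    obtain ⟨_, hxU, hyU⟩ := hcs v hv hv'
    have h6 : (cs μ (insert x S) U).card ≤ (cs μ S U).card + 2 := by
      have h7 : cs μ (insert x S) U ⊆ cs μ S U ∪ {x, μ x} := by
        intro w hw
        rw [Finset.mem_union]
        by_cases hw' : w ∈ cs μ S U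
        · exact Or.inl hw'
        · right
          obtain ⟨h8, _⟩ := hcs w hw hw'
          simpa using h8
      refine le_trans (Finset.card_le_card h7) (le_trans (Finset.card_union_le _ _) ?_)
      have h8 : ({x, μ x} : Finset V).card ≤ 2 := Finset.card_le_two
      omega
    refine ⟨U, hU, hxU, hyU, ?_⟩
    obtain ⟨a, ha⟩ := hev U hU
    obtain ⟨b, hb⟩ := cs_even μ hμ S U
    have h9 : ((cs μ (insert x S) U).card : ℤ) ≤ (cs μ S U).card + 2 := by exact_mod_cast h6
    have hb' : ((cs μ S U).card : ℤ) = b + b := by exact_mod_cast hb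
    omega
  -- every pair is hit
  have hhit : ∀ x, μ x ≠ x → x ∈ S ∨ μ x ∈ S := by
    intro x hx
    by_contra hcon
    push Not at hcon
    obtain ⟨hxS, hyS⟩ := hcon
    obtain ⟨U, hU, hxU, hyU, hKU⟩ := key x hx hxS hyS
    have hy : μ (μ x) ≠ μ x := by
      rw [hμ]
      exact fun hh => hx hh.symm
    obtain ⟨U', hU', hyU', hxU', hKU'⟩ := key (μ x) hy hyS (by rw [hμ]; exact hxS)
    rw [hμ] at hxU'
    have h1 := hsub U U' hU hU'
    have h2 := hS3 _ (hRu U U' hU hU')
    have h3 := hS3 _ (hRi U U' hU hU')
    have h4 : ((cs μ S U ∪ cs μ S U') ∪ {x, μ x}).card ≤ (cs μ S (U ∪ U')).card := by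
      apply Finset.card_le_card
      intro v hv
      rw [mem_cs]
      rw [Finset.mem_union, Finset.mem_union, mem_cs, mem_cs] at hv
      rw [Finset.mem_union, Finset.mem_union]
      rcases hv with (hv | hv) | hv
      · tauto
      · tauto
      · rw [Finset.mem_insert, Finset.mem_singleton] at hv
        rcases hv with rfl | rfl
        · exact ⟨hx, Or.inr (Or.inr hxU'), Or.inr (Or.inl hyU)⟩
        · refine ⟨hy, Or.inr (Or.inl hyU), ?_⟩
          rw [hμ]
          exact Or.inr (Or.inr hxU')
    have h5 : (cs μ S U ∩ cs μ S U').card ≤ (cs μ S (U ∩ U')).card := by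
      apply Finset.card_le_card
      intro v hv
      rw [Finset.mem_inter, mem_cs, mem_cs] at hv
      rw [mem_cs, Finset.mem_inter, Finset.mem_inter]
      tauto
    have h6 : Disjoint (cs μ S U ∪ cs μ S U') ({x, μ x} : Finset V) := by
      rw [Finset.disjoint_right]
      intro v hv
      rw [Finset.mem_insert, Finset.mem_singleton] at hv
      rw [Finset.mem_union, mem_cs, mem_cs]
      rcases hv with rfl | rfl
      · rintro (hh | hh)
        · rcases hh.2.1 with h7 | h7
          · exact hxS h7
          · exact hxU h7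
        · rcases hh.2.2 with h7 | h7
          · exact hyS h7
          · exact hyU' h7
      · rw [hμ]
        rintro (hh | hh)
        · rcases hh.2.2 with h7 | h7
          · exact hxS h7
          · exact hxU h7
        · rcases hh.2.1 with h7 | h7
          · exact hyS h7
          · exact hyU' h7
    rw [Finset.card_union_of_disjoint h6, Finset.card_pair (Ne.symm hx)] at h4
    have h7 := Finset.card_union_add_card_inter (cs μ S U) (cs μ S U')
    have h8 : ((cs μ S U).card : ℤ) + (cs μ S U').card + 2 ≤
        (cs μ S (U ∪ U')).card + (cs μ S (U ∩ U')).card := by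
      have : (cs μ S U).card + (cs μ S U').card + 2 ≤
        (cs μ S (U ∪ U')).card + (cs μ S (U ∩ U')).card := by omega
      exact_mod_cast this
    omega
  refine ⟨Finset.univ.filter (fun v => μ v ≠ v ∧ v ∉ S), ?_, ?_, ?_⟩
  · intro v hv
    exact (Finset.mem_filter.1 hv).2.1
  · intro v hv
    have hv' : μ (μ v) ≠ μ v := by
      rw [hμ]
      exact fun hh => hv hh.symm
    simp only [Finset.mem_filter, Finset.mem_univ, true_and]
    constructor
    · rintro ⟨_, h1⟩ ⟨_, h2⟩
      rcases hhit v hv with h3 | h3
      · exact h1 h3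
      · exact h2 h3
    · intro h1
      refine ⟨hv, ?_⟩
      intro h2
      apply h1
      exact ⟨hv', hS2 v h2⟩
  · intro U hU
    refine le_trans ?_ (hS3 U hU)
    set N := Finset.univ.filter (fun v => μ v ≠ v ∧ v ∉ S) with hN
    have h1 : ((N ∩ U) ∪ (N ∩ U).image μ).card ≤ (cs μ S U).card := by
      apply Finset.card_le_card
      intro v hv
      rw [mem_cs]
      rcases Finset.mem_union.1 hv with hv | hv
      · rw [Finset.mem_inter, hN, Finset.mem_filter] at hv
        obtain ⟨⟨_, h2, h3⟩, h4⟩ := hv
        refine ⟨h2, Or.inr h4, Or.inl ?_⟩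
        rcases hhit v h2 with h5 | h5
        · exact absurd h5 h3
        · exact h5
      · obtain ⟨w, hw, rfl⟩ := Finset.mem_image.1 hv
        rw [Finset.mem_inter, hN, Finset.mem_filter] at hw
        obtain ⟨⟨_, h2, h3⟩, h4⟩ := hw
        rw [hμ]
        refine ⟨fun hh => h2 hh.symm, Or.inl ?_, Or.inr h4⟩
        rcases hhit w h2 with h5 | h5
        · exact absurd h5 h3
        · exact h5
    have h2 : Disjoint (N ∩ U) ((N ∩ U).image μ) := by
      rw [Finset.disjoint_right]
      intro v hv hv'
      obtain ⟨w, hw, rfl⟩ := Finset.mem_image.1 hv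
      rw [Finset.mem_inter, hN, Finset.mem_filter] at hw hv'
      rcases hhit w hw.1.2.1 with h5 | h5
      · exact hw.1.2.2 h5
      · exact hv'.1.2.2 h5
    have hinj : Function.Injective μ := fun a b hab => by rw [← hμ a, ← hμ b, hab]
    rw [Finset.card_union_of_disjoint h2, Finset.card_image_of_injective _ hinj] at h1
    have h3 : 2 * (N ∩ U).card ≤ (cs μ S U).card := by omega
    exact_mod_cast h3

/-- The vertices of X paired outside X. -/
def sepSet (μ : V → V) (X : Finset V) : Finset V := X.filter (fun v => μ v ∉ X)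

omit [Fintype V] in
theorem cut_submod (p q : E → V) (X Y : Finset V) :
    (cut p q (X ∪ Y)).card + (cut p q (X ∩ Y)).card ≤ (cut p q X).card + (cut p q Y).card := by
  unfold cut
  simp only [Finset.card_filter]
  rw [← Finset.sum_add_distrib, ← Finset.sum_add_distrib]
  apply Finset.sum_le_sum
  intro a _
  by_cases h1 : p a ∈ X <;> by_cases h2 : p a ∈ Y <;> by_cases h3 : q a ∈ X <;>
    by_cases h4 : q a ∈ Y <;> simp [h1, h2, h3, h4]

/-- PAIR1: a pairing of the odd vertices which crosses no set more often than the edges do, and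
every set entered by no arc (without the root) at least 2t times less often, gives the
out-degree vector. -/
theorem vector_of_pairing (p q : E → V) (r : V) (t : ℕ) (μ : V → V) (hμ : ∀ v, μ (μ v) = v)
    (hodd : ∀ v, μ v ≠ v ↔ Odd (deg p q v))
    (P0 : ∀ Z : Finset V, (sepSet μ Z).card ≤ (cut p q Z).card)
    (P1 : ∀ X : Finset V, X.Nonempty → r ∉ X → NoEnter p q X →
      (sepSet μ X).card + 2 * t ≤ (cut p q X).card)
    (H2 : ∀ Y : Finset V, Y.Nonempty → r ∉ Y → NoLeave p q Y → 2 * t ≤ (cut p q Y).card) :
    ∃ m : V → ℕ, ∑ v, m v = Fintype.card E ∧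
      (∀ X : Finset V, (inside p q X).card ≤ ∑ v ∈ X, m v) ∧
      ∀ X : Finset V, X.Nonempty → r ∉ X → (NoEnter p q X ∨ NoLeave p q X) →
        (inside p q X).card + t ≤ ∑ v ∈ X, m v := by
  classical
  let K : Finset V → ℤ := fun U => ((U.filter (fun v => μ v ≠ v)).card : ℤ) + (cut p q U).card -
    2 * t * kap p q U
  have hmodT : ∀ U U' : Finset V, (((U ∪ U').filter (fun v => μ v ≠ v)).card : ℤ) +
      ((U ∩ U').filter (fun v => μ v ≠ v)).card =
      (U.filter (fun v => μ v ≠ v)).card + (U'.filter (fun v => μ v ≠ v)).card := by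
    intro U U'
    rw [Finset.filter_union, Finset.filter_inter_distrib]
    exact_mod_cast Finset.card_union_add_card_inter _ _
  obtain ⟨N, hN1, hN2, hN3⟩ := exists_choice μ hμ (fun U => r ∉ U ∧ NoLeave p q U) K
    (by
      rintro U U' ⟨h1, h2⟩ ⟨h3, h4⟩
      refine ⟨fun hh => (Finset.mem_union.1 hh).elim h1 h3, ?_⟩
      intro a ha
      rcases Finset.mem_union.1 ha with ha | ha
      · exact Finset.mem_union.2 (Or.inl (h2 a ha))
      · exact Finset.mem_union.2 (Or.inr (h4 a ha)))
    (by
      rintro U U' ⟨h1, h2⟩ ⟨h3, h4⟩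
      refine ⟨fun hh => h1 (Finset.mem_inter.1 hh).1, ?_⟩
      intro a ha
      rw [Finset.mem_inter] at ha ⊢
      exact ⟨h2 a ha.1, h4 a ha.2⟩)
    (by
      rintro U U' ⟨h1, h2⟩ ⟨h3, h4⟩
      have h5 := kap_super p q U U' h2 h4
      have h6 := cut_submod p q U U'
      have h7 := hmodT U U'
      have h8 : ((cut p q (U ∪ U')).card : ℤ) + (cut p q (U ∩ U')).card ≤
          (cut p q U).card + (cut p q U').card := by exact_mod_cast h6
      have h9 : (2 * (t : ℤ)) * (kap p q U + kap p q U') ≤
          (2 * (t : ℤ)) * (kap p q (U ∪ U') + kap p q (U ∩ U')) :=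
        mul_le_mul_of_nonneg_left h5 (by positivity)
      simp only [K]
      rw [mul_add, mul_add] at h9
      linarith)
    (by
      rintro U ⟨h1, h2⟩
      have h3 := sum_deg p q U
      have h4 : Even ((U.filter (fun v => μ v ≠ v)).card + (cut p q U).card) := by
        have h5 : ∑ v ∈ U, (deg p q v + (if μ v ≠ v then 1 else 0)) =
            2 * (inside p q U).card + ((U.filter (fun v => μ v ≠ v)).card +
              (cut p q U).card) := by
          rw [Finset.sum_add_distrib, h3, Finset.card_filter]
          ring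
        have h6 : Even (∑ v ∈ U, (deg p q v + (if μ v ≠ v then 1 else 0))) := by
          apply Finset.even_sum
          intro v _
          by_cases hv : μ v ≠ v
          · rw [if_pos hv]
            exact ((hodd v).1 hv).add_one
          · rw [if_neg hv, add_zero]
            rw [hodd v, Nat.not_odd_iff_even] at hv
            exact hv
        rw [h5] at h6
        exact (Nat.even_add.1 h6).1 (even_two_mul _)
      have h7 : Even ((((U.filter (fun v => μ v ≠ v)).card + (cut p q U).card : ℕ)) : ℤ) := by
        exact_mod_cast h4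
      push_cast at h7
      exact h7.sub ⟨t * kap p q U, by ring⟩)
    (by
      rintro U ⟨h1, h2⟩
      have h3 := kap_cut p q r (2 * t) H2 U h1 h2
      push_cast at h3
      simp only [K]
      linarith)
  -- the signs
  let ε : V → ℤ := fun v => if v ∈ N then -1 else if μ v ≠ v then 1 else 0
  let m : V → ℕ := fun v => if v ∈ N then deg p q v / 2 else (deg p q v + 1) / 2
  have hm : ∀ v, 2 * (m v : ℤ) = deg p q v + ε v := by
    intro v
    simp only [m, ε]
    by_cases hv : v ∈ N
    · have h1 := (hodd v).1 (hN1 v hv)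
      obtain ⟨k, hk⟩ := h1
      rw [if_pos hv, if_pos hv]
      omega
    · rw [if_neg hv, if_neg hv]
      by_cases hv' : μ v ≠ v
      · obtain ⟨k, hk⟩ := (hodd v).1 hv'
        rw [if_pos hv']
        omega
      · rw [if_neg hv']
        rw [hodd v, Nat.not_odd_iff_even] at hv'
        obtain ⟨k, hk⟩ := hv'
        omega
  have hpair : ∀ v, ε v + ε (μ v) = 0 := by
    intro v
    by_cases hv : μ v ≠ v
    · have h1 := hN2 v hv
      have hv' : μ (μ v) ≠ μ v := by
        rw [hμ]
        exact fun hh => hv hh.symm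
      simp only [ε]
      by_cases h2 : v ∈ N
      · have h3 : μ v ∉ N := h1.1 h2
        rw [if_pos h2, if_neg h3, if_pos hv']
        norm_num
      · have h3 : μ v ∈ N := by
          by_contra h4
          exact h2 (h1.2 h4)
        rw [if_neg h2, if_pos h3, if_pos hv]
        norm_num
    · have h2 : v ∉ N := fun hh => hv (hN1 v hh)
      have h3 : ε v = 0 := by
        simp only [ε]
        rw [if_neg h2, if_neg hv]
      push Not at hv
      rw [hv, h3]
      norm_num
  have hsumX : ∀ X : Finset V, 2 * ((∑ v ∈ X, m v : ℕ) : ℤ) =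
      2 * (inside p q X).card + (cut p q X).card + ∑ v ∈ X, ε v := by
    intro X
    have h1 := sum_deg p q X
    have h2 : ((∑ v ∈ X, deg p q v : ℕ) : ℤ) = 2 * (inside p q X).card + (cut p q X).card := by
      exact_mod_cast h1
    rw [← h2]
    push_cast
    rw [Finset.mul_sum, ← Finset.sum_add_distrib]
    exact Finset.sum_congr rfl (fun v _ => hm v)
  have hzero : ∀ X : Finset V, (∀ v ∈ X, μ v ∈ X) → ∑ v ∈ X, ε v = 0 := by
    intro X hX
    refine Finset.sum_involution (fun v _ => μ v) ?_ ?_ ?_ ?_
    · intro v _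
      exact hpair v
    · intro v hv hne hh
      apply hne
      have h1 := hpair v
      rw [hh] at h1
      omega
    · intro v hv
      exact hX v hv
    · intro v _
      exact hμ v
  have hlow : ∀ X : Finset V, -((sepSet μ X).card : ℤ) ≤ ∑ v ∈ X, ε v := by
    intro X
    rw [← Finset.sum_filter_add_sum_filter_not X (fun v => μ v ∉ X)]
    have h1 : ∑ v ∈ X.filter (fun v => ¬ μ v ∉ X), ε v = 0 := by
      apply hzero
      intro v hv
      rw [Finset.mem_filter] at hv ⊢
      rw [hμ]
      push Not at hv ⊢
      exact ⟨hv.2, hv.1⟩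
    rw [h1, add_zero]
    have h2 : ∑ v ∈ X.filter (fun v => μ v ∉ X), (-1 : ℤ) ≤
        ∑ v ∈ X.filter (fun v => μ v ∉ X), ε v := by
      apply Finset.sum_le_sum
      intro v _
      simp only [ε]
      split_ifs <;> norm_num
    rw [Finset.sum_const, nsmul_eq_mul] at h2
    unfold sepSet
    linarith
  refine ⟨m, ?_, ?_, ?_⟩
  · have h1 := hsumX Finset.univ
    have h2 := hzero Finset.univ (fun v _ => Finset.mem_univ _)
    have h3 : inside p q (Finset.univ : Finset V) = Finset.univ := by
      ext e
      simp [inside]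
    have h4 : cut p q (Finset.univ : Finset V) = ∅ := by
      ext e
      simp [cut]
    rw [h2, h3, h4, Finset.card_univ, Finset.card_empty] at h1
    push_cast at h1
    have h5 : ((∑ v, m v : ℕ) : ℤ) = Fintype.card E := by
      push_cast
      linarith
    exact_mod_cast h5
  · intro X
    have h1 := hsumX X
    have h2 := hlow X
    have h3 : ((sepSet μ X).card : ℤ) ≤ (cut p q X).card := by exact_mod_cast P0 X
    omega
  · intro X hX hr hE
    have h1 := hsumX X
    rcases hE with hE | hE
    · have h2 := hlow X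
      have h3 : ((sepSet μ X).card : ℤ) + 2 * t ≤ (cut p q X).card := by
        exact_mod_cast P1 X hX hr hE
      omega
    · have h2 := hN3 X ⟨hr, hE⟩
      have h3 := kap_pos p q X hX
      have h4 : ∑ v ∈ X, ε v = ((X.filter (fun v => μ v ≠ v)).card : ℤ) -
          2 * ((N ∩ X).card : ℤ) := by
        rw [Finset.card_filter, Finset.inter_comm, ← Finset.filter_mem_eq_inter,
          Finset.card_filter]
        push_cast
        rw [Finset.mul_sum, ← Finset.sum_sub_distrib]
        apply Finset.sum_congr rfl
        intro v _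
        simp only [ε]
        by_cases h5 : v ∈ N
        · rw [if_pos h5, if_pos h5, if_pos (hN1 v h5)]
          norm_num
        · rw [if_neg h5, if_neg h5]
          by_cases h6 : μ v ≠ v
          · rw [if_pos h6]
            norm_num
          · rw [if_neg h6]
            norm_num
      simp only [K] at h2
      have h5 : (2 * (t : ℤ)) * 1 ≤ (2 * (t : ℤ)) * kap p q X :=
        mul_le_mul_of_nonneg_left h3 (by positivity)
      omega

end H37.OS
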