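import Pool.Agent.H37.OS.PairVec

/-!
# A pairing of the odd vertices of a graph crossing every cut at most as often as the edges
-/

namespace H37.OS

variable {V E : Type*} [DecidableEq V] [Fintype V] [Fintype E]

/-- Degree in the set S of edges. -/
def degS (p q : E → V) (S : Finset E) (v : V) : ℕ :=
  (S.filter (fun e => p e = v)).card + (S.filter (fun e => q e = v)).card

/-- Edges of S with exactly one end in Z. -/
def cutS (p q : E → V) (S : Finset E) (Z : Finset V) : Finset E :=
  S.filter (fun e => ¬ (p e ∈ Z ↔ q e ∈ Z))

omit [Fintype V] in
private theorem sep_eq [Fintype V] (μ : V → V) (Z : Finset V) :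
    (sepSet μ Z).card = ∑ v : V, if v ∈ Z ∧ μ v ∉ Z then 1 else 0 := by
  unfold sepSet
  rw [Finset.card_filter, ← Finset.sum_filter_add_sum_filter_not Finset.univ (fun v => v ∈ Z)]
  have h1 : (∑ v ∈ Finset.univ.filter (fun v => ¬ v ∈ Z), if v ∈ Z ∧ μ v ∉ Z then 1 else 0) =
      0 := by
    apply Finset.sum_eq_zero
    intro v hv
    rw [Finset.mem_filter] at hv
    rw [if_neg (fun hh => hv.2 hh.1)]
  rw [h1, add_zero]
  have h2 : Finset.univ.filter (fun v => v ∈ Z) = Z := by
    ext v
    simp
  rw [h2]
  apply Finset.sum_congr rfl
  intro v hv
  simp [hv]

omit [Fintype V] in
private theorem sep_step [Fintype V] (μ μ' : V → V) (Q : Finset V) (Z : Finset V) (c : ℕ)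
    (hout : ∀ v, v ∉ Q → μ' v = μ v)
    (hin : (∑ v ∈ Q, if v ∈ Z ∧ μ' v ∉ Z then 1 else 0) ≤
      (∑ v ∈ Q, if v ∈ Z ∧ μ v ∉ Z then 1 else 0) + c) :
    (sepSet μ' Z).card ≤ (sepSet μ Z).card + c := by
  rw [sep_eq, sep_eq]
  rw [← Finset.sum_filter_add_sum_filter_not Finset.univ (fun v => v ∈ Q)]
  rw [← Finset.sum_filter_add_sum_filter_not Finset.univ (fun v => v ∈ Q)
    (fun v => if v ∈ Z ∧ μ v ∉ Z then 1 else 0)]
  have h2 : Finset.univ.filter (fun v => v ∈ Q) = Q := by
    ext v
    simp
  rw [h2]
  have h3 : (∑ v ∈ Finset.univ.filter (fun v => ¬ v ∈ Q), if v ∈ Z ∧ μ' v ∉ Z then 1 else 0) =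
      ∑ v ∈ Finset.univ.filter (fun v => ¬ v ∈ Q), if v ∈ Z ∧ μ v ∉ Z then 1 else 0 := by
    apply Finset.sum_congr rfl
    intro v hv
    rw [Finset.mem_filter] at hv
    rw [hout v hv.2]
  rw [h3]
  omega

omit [Fintype V] [Fintype E] in
private theorem degS_insert [DecidableEq E] (p q : E → V) (S : Finset E) (e : E) (he : e ∉ S)
    (v : V) :
    degS p q (insert e S) v = degS p q S v + (if p e = v then 1 else 0) +
      (if q e = v then 1 else 0) := by
  unfold degS
  rw [Finset.filter_insert, Finset.filter_insert]
  by_cases h1 : p e = v
  · by_cases h2 : q e = v
    · rw [if_pos h1, if_pos h2, if_pos h1, if_pos h2,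
        Finset.card_insert_of_notMem (fun hh => he (Finset.mem_filter.1 hh).1),
        Finset.card_insert_of_notMem (fun hh => he (Finset.mem_filter.1 hh).1)]
      omega
    · rw [if_pos h1, if_neg h2, if_pos h1, if_neg h2,
        Finset.card_insert_of_notMem (fun hh => he (Finset.mem_filter.1 hh).1)]
      omega
  · by_cases h2 : q e = v
    · rw [if_neg h1, if_pos h2, if_neg h1, if_pos h2,
        Finset.card_insert_of_notMem (fun hh => he (Finset.mem_filter.1 hh).1)]
      omega
    · rw [if_neg h1, if_neg h2, if_neg h1, if_neg h2]
      omega

omit [Fintype V] [Fintype E] in
private theorem cutS_insert [DecidableEq E] (p q : E → V) (S : Finset E) (e : E) (he : e ∉ S)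
    (Z : Finset V) :
    (cutS p q (insert e S) Z).card = (cutS p q S Z).card +
      (if ¬ (p e ∈ Z ↔ q e ∈ Z) then 1 else 0) := by
  unfold cutS
  rw [Finset.filter_insert]
  by_cases h1 : ¬ (p e ∈ Z ↔ q e ∈ Z)
  · rw [if_pos h1, if_pos h1,
      Finset.card_insert_of_notMem (fun hh => he (Finset.mem_filter.1 hh).1)]
  · rw [if_neg h1, if_neg h1, add_zero]

omit [Fintype E] in
/-- The pairing. -/
theorem pairing_of_edges [DecidableEq E] (p q : E → V) (S : Finset E) :
    ∃ μ : V → V, (∀ v, μ (μ v) = v) ∧ (∀ v, μ v ≠ v ↔ Odd (degS p q S v)) ∧
      ∀ Z : Finset V, (sepSet μ Z).card ≤ (cutS p q S Z).card := by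
  classical
  induction S using Finset.induction_on with
  | empty =>
    refine ⟨id, fun v => rfl, ?_, ?_⟩
    · intro v
      simp [degS]
    · intro Z
      have : sepSet id Z = ∅ := by
        ext v
        simp [sepSet]
      rw [this]
      simp
  | insert e S he ih =>
    obtain ⟨μ, h1, h2, h3⟩ := ih
    have hinj : Function.Injective μ := fun a b hab => by rw [← h1 a, ← h1 b, hab]
    by_cases huw : p e = q e
    · -- a loop
      refine ⟨μ, h1, ?_, ?_⟩
      · intro v
        rw [h2 v, degS_insert p q S e he v, huw]
        by_cases hv : q e = v
        · rw [if_pos hv]
          constructor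
          · rintro ⟨k, hk⟩
            exact ⟨k + 1, by omega⟩
          · rintro ⟨k, hk⟩
            exact ⟨k - 1, by omega⟩
        · rw [if_neg hv]
          simp
      · intro Z
        rw [cutS_insert p q S e he Z]
        exact le_trans (h3 Z) (Nat.le_add_right _ _)
    · have hpar : ∀ v, Odd (degS p q (insert e S) v) ↔
          (if v = p e ∨ v = q e then ¬ Odd (degS p q S v) else Odd (degS p q S v)) := by
        intro v
        rw [degS_insert p q S e he v]
        by_cases hv1 : v = p e
        · subst hv1
          rw [if_pos rfl, if_neg (fun hh => huw hh.symm), if_pos (Or.inl rfl), add_zero,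
            Nat.odd_add_one]
        · by_cases hv2 : v = q e
          · subst hv2
            rw [if_neg huw, if_pos rfl, if_pos (Or.inr rfl), add_zero, Nat.odd_add_one]
          · rw [if_neg (fun hh => hv1 hh.symm), if_neg (fun hh => hv2 hh.symm),
              if_neg (fun hh => hh.elim hv1 hv2)]
            simp
      set u := p e with hu
      set w := q e with hw
      by_cases huv : μ u = w
      · -- they were paired
        have hwu : μ w = u := by rw [← huv, h1]
        refine ⟨fun v => if v = u ∨ v = w then v else μ v, ?_, ?_, ?_⟩
        · intro v
          by_cases hv : v = u ∨ v = w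
          · simp [hv]
          · have h4 : ¬ (μ v = u ∨ μ v = w) := by
              rintro (hh | hh)
              · exact hv (Or.inr (hinj (by rw [hh, hwu])))
              · exact hv (Or.inl (hinj (by rw [hh, huv])))
            simp only [if_neg hv, if_neg h4]
            exact h1 v
        · intro v
          rw [hpar v]
          by_cases hv : v = u ∨ v = w
          · simp only [if_pos hv]
            rw [← h2 v]
            constructor
            · intro hh
              exact absurd rfl hh
            · intro hh _
              apply hh
              rcases hv with rfl | rfl
              · rw [huv]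
                exact fun hh => huw hh.symm
              · rw [hwu]
                exact huw
          · simp only [if_neg hv]
            exact h2 v
        · intro Z
          refine le_trans (sep_step μ _ {u, w} Z 0 ?_ ?_)
            (le_trans (Nat.add_zero _).le (le_trans (h3 Z) ?_))
          · intro v hv
            rw [Finset.mem_insert, Finset.mem_singleton] at hv
            rw [if_neg hv]
          · rw [Finset.sum_pair huw]
            simp
          · rw [cutS_insert p q S e he Z]
            exact Nat.le_add_right _ _
      · -- the general case
        have hwu : μ w ≠ u := fun hh => huv (by rw [← hh, h1])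
        have hab : μ u ≠ μ w := fun hh => huw (hinj hh)
        let μ' : V → V := fun v => if v = μ u then μ w else if v = μ w then μ u else
          if v = u then u else if v = w then w else μ v
        have e1 : μ' (μ u) = μ w := by simp [μ']
        have e2 : μ' (μ w) = μ u := by
          simp only [μ']
          rw [if_neg (Ne.symm hab), if_pos trivial]
        have e3 : μ u ≠ u → μ' u = u := by
          intro hh
          simp only [μ']
          rw [if_neg (Ne.symm hh), if_neg (Ne.symm hwu), if_pos trivial]
        have e4 : μ w ≠ w → μ' w = w := by
          intro hh
          simp only [μ']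
          rw [if_neg (Ne.symm huv), if_neg (Ne.symm hh), if_neg (Ne.symm huw), if_pos trivial]
        have e5 : ∀ v, v ≠ μ u → v ≠ μ w → v ≠ u → v ≠ w → μ' v = μ v := by
          intro v a1 a2 a3 a4
          simp only [μ']
          rw [if_neg a1, if_neg a2, if_neg a3, if_neg a4]
        refine ⟨μ', ?_, ?_, ?_⟩
        · intro v
          by_cases a1 : v = μ u
          · rw [a1, e1, e2]
          · by_cases a2 : v = μ w
            · rw [a2, e2, e1]
            · by_cases a3 : v = u
              · rw [a3] at a1 ⊢
                rw [e3 (Ne.symm a1), e3 (Ne.symm a1)]
              · by_cases a4 : v = w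
                · rw [a4] at a2 ⊢
                  rw [e4 (Ne.symm a2), e4 (Ne.symm a2)]
                · rw [e5 v a1 a2 a3 a4]
                  rw [e5 (μ v) (fun hh => a3 (hinj hh)) (fun hh => a4 (hinj hh))
                    (fun hh => a1 (by rw [← hh, h1])) (fun hh => a2 (by rw [← hh, h1]))]
                  exact h1 v
        · intro v
          rw [hpar v]
          by_cases a3 : v = u
          · rw [if_pos (Or.inl a3), ← h2 v]
            rw [a3]
            by_cases a1 : μ u = u
            · constructor
              · intro _ hh
                exact hh a1
              · intro _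
                have : μ' u = μ w := by
                  conv_lhs => rw [← a1]
                  exact e1
                rw [this]
                exact hwu
            · constructor
              · intro hh
                exact absurd (e3 a1) hh
              · intro hh
                exact absurd a1 hh
          · by_cases a4 : v = w
            · rw [if_pos (Or.inr a4), ← h2 v]
              rw [a4]
              by_cases a1 : μ w = w
              · constructor
                · intro _ hh
                  exact hh a1
                · intro _
                  have : μ' w = μ u := by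
                    conv_lhs => rw [← a1]
                    exact e2
                  rw [this]
                  exact huv
              · constructor
                · intro hh
                  exact absurd (e4 a1) hh
                · intro hh
                  exact absurd a1 hh
            · rw [if_neg (fun hh => hh.elim a3 a4), ← h2 v]
              by_cases a1 : v = μ u
              · rw [a1, e1, h1]
                constructor
                · intro _ hh
                  exact a3 (by rw [a1, ← hh])
                · intro _
                  exact Ne.symm hab
              · by_cases a2 : v = μ w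
                · rw [a2, e2, h1]
                  constructor
                  · intro _ hh
                    exact a4 (by rw [a2, ← hh])
                  · intro _
                    exact hab
                · rw [e5 v a1 a2 a3 a4]
        · intro Z
          rw [cutS_insert p q S e he Z]
          have hstep : (sepSet μ' Z).card ≤ (sepSet μ Z).card +
              (if ¬ (u ∈ Z ↔ w ∈ Z) then 1 else 0) := by
            apply sep_step μ μ' {u, w, μ u, μ w} Z
            · intro v hv
              simp only [Finset.mem_insert, Finset.mem_singleton, not_or] at hv
              exact e5 v hv.2.2.1 hv.2.2.2 hv.1 hv.2.1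
            · by_cases a1 : μ u = u
              · have e1' : μ' u = μ w := by
                  conv_lhs => rw [← a1]
                  exact e1
                by_cases a2 : μ w = w
                · have hQ : ({u, w, μ u, μ w} : Finset V) = {u, w} := by
                    rw [a1, a2]
                    ext v
                    simp only [Finset.mem_insert, Finset.mem_singleton]
                    tauto
                  have e2' : μ' w = μ u := by
                    conv_lhs => rw [← a2]
                    exact e2
                  rw [hQ, Finset.sum_pair huw, Finset.sum_pair huw, e1', e2', a1, a2]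
                  by_cases b1 : u ∈ Z <;> by_cases b2 : w ∈ Z <;> simp [b1, b2]
                · have hQ : ({u, w, μ u, μ w} : Finset V) = {u, w, μ w} := by
                    rw [a1]
                    ext v
                    simp only [Finset.mem_insert, Finset.mem_singleton]
                    tauto
                  have n1 : u ∉ ({w, μ w} : Finset V) := by
                    simp only [Finset.mem_insert, Finset.mem_singleton, not_or]
                    exact ⟨huw, Ne.symm hwu⟩
                  rw [hQ, Finset.sum_insert n1, Finset.sum_insert n1,
                    Finset.sum_pair (Ne.symm a2), Finset.sum_pair (Ne.symm a2), e1', e2, e4 a2,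
                    h1, a1]
                  by_cases b1 : u ∈ Z <;> by_cases b2 : w ∈ Z <;> by_cases b3 : μ w ∈ Z <;>
                    simp [b1, b2, b3]
              · by_cases a2 : μ w = w
                · have e2' : μ' w = μ u := by
                    conv_lhs => rw [← a2]
                    exact e2
                  have hQ : ({u, w, μ u, μ w} : Finset V) = {u, w, μ u} := by
                    rw [a2]
                    ext v
                    simp only [Finset.mem_insert, Finset.mem_singleton]
                    tauto
                  have n1 : u ∉ ({w, μ u} : Finset V) := by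
                    simp only [Finset.mem_insert, Finset.mem_singleton, not_or]
                    exact ⟨huw, Ne.symm a1⟩
                  rw [hQ, Finset.sum_insert n1, Finset.sum_insert n1,
                    Finset.sum_pair (Ne.symm huv), Finset.sum_pair (Ne.symm huv), e2', e1, e3 a1,
                    h1, a2]
                  by_cases b1 : u ∈ Z <;> by_cases b2 : w ∈ Z <;> by_cases b3 : μ u ∈ Z <;>
                    simp [b1, b2, b3]
                · have n1 : u ∉ ({w, μ u, μ w} : Finset V) := by
                    simp only [Finset.mem_insert, Finset.mem_singleton, not_or]
                    exact ⟨huw, Ne.symm a1, Ne.symm hwu⟩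
                  have n2 : w ∉ ({μ u, μ w} : Finset V) := by
                    simp only [Finset.mem_insert, Finset.mem_singleton, not_or]
                    exact ⟨Ne.symm huv, Ne.symm a2⟩
                  rw [Finset.sum_insert n1, Finset.sum_insert n1, Finset.sum_insert n2,
                    Finset.sum_insert n2, Finset.sum_pair hab, Finset.sum_pair hab, e3 a1,
                    e4 a2, e1, e2, h1, h1]
                  by_cases b1 : u ∈ Z <;> by_cases b2 : w ∈ Z <;> by_cases b3 : μ u ∈ Z <;>
                    by_cases b4 : μ w ∈ Z <;> simp [b1, b2, b3, b4]
          exact le_trans hstep (Nat.add_le_add_right (h3 Z) _)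

end H37.OS
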